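import Pool.Agent.H562.NP.Upper

/-! Asymptotic forms of the lower bounds. -/

set_option autoImplicit false

open Finset Filter

namespace Pool.Agent.H562.NP

/-- The iterated logarithm. -/
noncomputable def LL (n : ℕ) : ℝ := Real.log (Real.log n)

theorem tendsto_LL : Tendsto LL atTop atTop :=
  Real.tendsto_log_atTop.comp (Real.tendsto_log_atTop.comp tendsto_natCast_atTop_atTop)

theorem quad_le_exp (a b c δ : ℝ) (hδ : 0 < δ) :
    ∀ᶠ L : ℝ in atTop, a * L ^ 2 + b * L + c ≤ Real.exp (δ * L) := by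
  have h1 : (fun x : ℝ => x ^ 2) =o[atTop] fun x => Real.exp (δ * x) :=
    isLittleO_pow_exp_pos_mul_atTop 2 hδ
  have hK : 0 < |a| + |b| + |c| + 1 := by positivity
  have h2 := h1.bound (show 0 < 1 / (|a| + |b| + |c| + 1) by positivity)
  filter_upwards [h2, eventually_ge_atTop 1] with L h3 h4
  rw [Real.norm_of_nonneg (by positivity), Real.norm_of_nonneg (Real.exp_pos _).le] at h3
  have h5 : (|a| + |b| + |c| + 1) * L ^ 2 ≤ Real.exp (δ * L) := by
    rw [one_div, inv_mul_eq_div, le_div_iff₀ hK] at h3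
    linarith
  have h6 : a * L ^ 2 ≤ |a| * L ^ 2 := mul_le_mul_of_nonneg_right (le_abs_self a) (by positivity)
  have h7 : b * L ≤ |b| * L ^ 2 := by
    have : b * L ≤ |b| * L := mul_le_mul_of_nonneg_right (le_abs_self b) (by linarith)
    have h8 : |b| * L ≤ |b| * L ^ 2 := mul_le_mul_of_nonneg_left (by nlinarith) (abs_nonneg b)
    linarith
  have h9 : c ≤ |c| * L ^ 2 := by
    have : c ≤ |c| := le_abs_self c
    have h8 : |c| * 1 ≤ |c| * L ^ 2 := mul_le_mul_of_nonneg_left (by nlinarith) (abs_nonneg c)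
    linarith
  nlinarith [sq_nonneg L]

theorem lin_le_sq (a b ε : ℝ) (hε : 0 < ε) : ∀ᶠ L : ℝ in atTop, a * L + b ≤ ε * L ^ 2 := by
  filter_upwards [eventually_ge_atTop 1, eventually_ge_atTop ((|a| + |b|) / ε)] with L h1 h2
  rw [div_le_iff₀ hε] at h2
  have h3 : a * L ≤ |a| * L := mul_le_mul_of_nonneg_right (le_abs_self a) (by linarith)
  have h4 : b ≤ |b| * L := by
    have : b ≤ |b| := le_abs_self b
    have h5 : |b| * 1 ≤ |b| * L := mul_le_mul_of_nonneg_left h1 (abs_nonneg b)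
    linarith
  have h5 : (|a| + |b|) * L ≤ (L * ε) * L := mul_le_mul_of_nonneg_right h2 (by linarith)
  nlinarith

theorem exp_LL (n : ℕ) (hn : 3 ≤ n) : Real.exp (LL n) = Real.log n := by
  apply Real.exp_log
  apply Real.log_pos
  have : (3 : ℝ) ≤ n := by exact_mod_cast hn
  linarith

theorem rpow_LL (n : ℕ) (hn : 3 ≤ n) (y : ℝ) : Real.log n ^ y = Real.exp (LL n * y) := by
  rw [Real.rpow_def_of_pos]
  · rfl
  · apply Real.log_pos
    have : (3 : ℝ) ≤ n := by exact_mod_cast hn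
    linarith

theorem two_pow_eq (k : ℕ) : (2 : ℝ) ^ k = Real.exp (k * Real.log 2) := by
  rw [mul_comm, Real.exp_mul, Real.exp_log (by norm_num), Real.rpow_natCast]

/-- The number of the steps. -/
theorem S_spec (n : ℕ) (hn : 3 ≤ n) (hL : 0 ≤ LL n) :
    ∃ S : ℕ, n ≤ 2 ^ (2 ^ S) ∧ 1 ≤ S ∧ (S : ℝ) ≤ LL n / Real.log 2 + 2 := by
  have hl2 : 0 < Real.log 2 := Real.log_pos (by norm_num)
  have hl2' : (0.6931471803 : ℝ) < Real.log 2 := Real.log_two_gt_d9
  refine ⟨⌈LL n / Real.log 2⌉₊ + 1, ?_, by omega, ?_⟩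
  · have h1 : (2 : ℝ) * Real.log n ≤ 2 ^ (⌈LL n / Real.log 2⌉₊ + 1) := by
      rw [pow_succ, two_pow_eq, ← exp_LL n hn]
      have h2 : LL n / Real.log 2 ≤ (⌈LL n / Real.log 2⌉₊ : ℝ) := Nat.le_ceil _
      have h3 : LL n ≤ (⌈LL n / Real.log 2⌉₊ : ℝ) * Real.log 2 := by
        rwa [div_le_iff₀ hl2] at h2
      have h4 := Real.exp_le_exp.mpr h3
      linarith
    have hn0 : (0 : ℝ) < n := by
      have : (3 : ℝ) ≤ n := by exact_mod_cast hn
      linarith
    have h5 : Real.log n ≤ Real.log ((2 : ℝ) ^ (2 ^ (⌈LL n / Real.log 2⌉₊ + 1))) := by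
      rw [Real.log_pow]
      push_cast
      have hln : 0 ≤ Real.log n := by
        rw [← exp_LL n hn]; exact (Real.exp_pos _).le
      nlinarith
    have h6 := (Real.log_le_log_iff hn0 (by positivity)).mp h5
    exact_mod_cast h6
  · push_cast
    have h2 := Nat.ceil_lt_add_one (show 0 ≤ LL n / Real.log 2 by positivity)
    linarith

theorem density_of_card (n E : ℕ) (hn : 1 ≤ n) (A : Finset ℕ) (h : n ≤ A.card * 2 ^ E)
    (y : ℝ) (hy : (E : ℝ) * Real.log 2 ≤ y) : Real.exp (-y) ≤ (A.card : ℝ) / n := by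
  have hn0 : (0 : ℝ) < n := by exact_mod_cast hn
  rw [le_div_iff₀ hn0]
  have h1 : (n : ℝ) ≤ A.card * 2 ^ E := by exact_mod_cast h
  have h2 : (2 : ℝ) ^ E ≤ Real.exp y := by
    rw [two_pow_eq]
    exact Real.exp_le_exp.mpr hy
  have h3 : Real.exp (-y) * Real.exp y = 1 := by rw [← Real.exp_add]; simp
  have h4 : 0 < Real.exp (-y) := Real.exp_pos _
  calc Real.exp (-y) * n ≤ Real.exp (-y) * (A.card * Real.exp y) := by
        apply mul_le_mul_of_nonneg_left _ h4.le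
        exact h1.trans (mul_le_mul_of_nonneg_left h2 (Nat.cast_nonneg _))
    _ = A.card * (Real.exp (-y) * Real.exp y) := by ring
    _ = A.card := by rw [h3, mul_one]

theorem ncard_le_self (D : Set ℕ) (x : ℕ) : (D ∩ Set.Ico x (2 * x)).ncard ≤ x := by
  calc (D ∩ Set.Ico x (2 * x)).ncard ≤ (Set.Ico x (2 * x)).ncard :=
        Set.ncard_le_ncard Set.inter_subset_right (Set.finite_Ico _ _)
    _ = x := by rw [← Finset.coe_Ico, Set.ncard_coe_finset, Nat.card_Ico]; omega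

theorem lower3 (β C ε : ℝ) (hβ : 0 ≤ β) (hε : 0 < ε) (D : Set ℕ) (x₀ : ℕ)
    (hD : ∀ x, x₀ ≤ x → ((D ∩ Set.Ico x (2 * x)).ncard : ℝ) ≤ C * Real.log x ^ β)
    (t : ℕ) (ht : 3 ≤ t) :
    ∃ n₀ : ℕ, ∀ n, n₀ ≤ n → ∃ A : Finset ℕ, Avoids D t n A ∧
      Real.exp (-((β / Real.log 2 + ε) * LL n ^ 2)) ≤ (A.card : ℝ) / n := by
  have hl2 : 0 < Real.log 2 := Real.log_pos (by norm_num)
  obtain ⟨K, hK⟩ : ∃ K : ℝ, K = |C| + x₀ + 2 := ⟨_, rfl⟩
  have hK0 : 0 < K := by rw [hK]; positivity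
  obtain ⟨δ, hδ⟩ : ∃ δ : ℝ, δ = ε * Real.log 2 / 2 := ⟨_, rfl⟩
  have hδ0 : 0 < δ := by rw [hδ]; positivity
  have hev : ∀ᶠ L : ℝ in atTop, 1 ≤ L ∧
      0 * L ^ 2 + (128 * K * ((β + δ) / Real.log 2)) * L + 256 * K ≤ Real.exp (δ * L) ∧
      (3 * (β + δ) + 2) * L + 8 * Real.log 2 ≤ ε / 2 * L ^ 2 ∧
      0 * L ^ 2 + (β + δ) * L + 3 * Real.log 2 ≤ Real.exp (1 * L) :=
    (eventually_ge_atTop 1).and ((quad_le_exp _ _ _ _ hδ0).and
      ((lin_le_sq _ _ _ (by positivity)).and (quad_le_exp _ _ _ _ one_pos)))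
  have hev2 := tendsto_LL.eventually hev
  obtain ⟨n₁, hn₁⟩ := eventually_atTop.mp hev2
  refine ⟨max n₁ 3, fun n hn => ?_⟩
  have hn3 : 3 ≤ n := le_trans (le_max_right _ _) hn
  obtain ⟨c0, c1, c2, c3⟩ := hn₁ n (le_trans (le_max_left _ _) hn)
  set L := LL n with hL
  obtain ⟨S, hS1, hS2, hS3⟩ := S_spec n hn3 (by linarith)
  rw [← hL] at hS3
  set P : ℝ := (β + δ) / Real.log 2 * L with hP
  have hP0 : 0 ≤ P := by positivity
  have hPl : P * Real.log 2 = (β + δ) * L := by rw [hP]; field_simp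
  set e : ℕ := ⌈P⌉₊ with he
  have he1 : P ≤ e := Nat.le_ceil _
  have he2 : (e : ℝ) < P + 1 := Nat.ceil_lt_add_one hP0
  set M : ℕ := ⌈|C| * Real.exp (L * β)⌉₊ + x₀ + 1 with hM
  have hexpβ : 1 ≤ Real.exp (L * β) := by
    apply Real.one_le_exp; positivity
  have hMle : (M : ℝ) ≤ K * Real.exp (L * β) := by
    rw [hM, hK]
    push_cast
    have h1 := Nat.ceil_lt_add_one (show 0 ≤ |C| * Real.exp (L * β) by positivity)
    have h2 : (x₀ : ℝ) ≤ x₀ * Real.exp (L * β) := by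
      have : (0 : ℝ) ≤ x₀ := Nat.cast_nonneg _
      nlinarith
    nlinarith
  have hMcount : ∀ x, 1 ≤ x → x ≤ n → (D ∩ Set.Ico x (2 * x)).ncard ≤ M := by
    intro x hx1 hxn
    rcases Nat.lt_or_ge x x₀ with h1 | h1
    · have := ncard_le_self D x
      rw [hM]; omega
    · have h2 := hD x h1
      have h3 : Real.log x ^ β ≤ Real.log n ^ β := by
        apply Real.rpow_le_rpow (Real.log_nonneg (by exact_mod_cast hx1)) _ hβ
        apply Real.log_le_log (by exact_mod_cast hx1)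
        exact_mod_cast hxn
      rw [rpow_LL n hn3, ← hL] at h3
      have h0 : 0 ≤ Real.log x ^ β := Real.rpow_nonneg (Real.log_nonneg (by exact_mod_cast hx1)) _
      have h4 : C * Real.log x ^ β ≤ |C| * Real.exp (L * β) := by
        calc C * Real.log x ^ β ≤ |C| * Real.log x ^ β :=
              mul_le_mul_of_nonneg_right (le_abs_self C) h0
          _ ≤ _ := mul_le_mul_of_nonneg_left h3 (abs_nonneg C)
      have h5 : ((D ∩ Set.Ico x (2 * x)).ncard : ℝ) ≤ (⌈|C| * Real.exp (L * β)⌉₊ : ℝ) :=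
        h2.trans (h4.trans (Nat.le_ceil _))
      have h6 : (D ∩ Set.Ico x (2 * x)).ncard ≤ ⌈|C| * Real.exp (L * β)⌉₊ := by
        exact_mod_cast h5
      rw [hM]; omega
  have h2e : Real.exp ((β + δ) * L) ≤ (2 : ℝ) ^ e := by
    rw [two_pow_eq, ← hPl]
    exact Real.exp_le_exp.mpr (mul_le_mul_of_nonneg_right he1 hl2.le)
  have hq : 256 * ((e + 1) * M) ≤ 2 ^ (e + 1) := by
    have h1 : (256 : ℝ) * (((e : ℝ) + 1) * M) ≤ 2 ^ (e + 1) := by
      have h3 : ((e : ℝ) + 1) * M ≤ (P + 2) * (K * Real.exp (L * β)) := by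
        apply mul_le_mul (by linarith) hMle (Nat.cast_nonneg _) (by linarith)
      have h4 : 128 * K * (P + 2) ≤ Real.exp (δ * L) := by
        refine le_trans (le_of_eq ?_) c1
        rw [hP]; ring
      have h5 : Real.exp ((β + δ) * L) = Real.exp (δ * L) * Real.exp (L * β) := by
        rw [← Real.exp_add]; congr 1; ring
      have h6 : 0 < Real.exp (L * β) := Real.exp_pos _
      rw [pow_succ]
      nlinarith
    exact_mod_cast h1
  have hne : 2 ^ (e + 2) ≤ n := by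
    have hn0 : (0 : ℝ) < n := by
      have : (3 : ℝ) ≤ n := by exact_mod_cast hn3
      linarith
    have h1 : ((e : ℝ) + 2) * Real.log 2 ≤ Real.log n := by
      rw [← exp_LL n hn3, ← hL]
      have h3 : ((e : ℝ) + 2) * Real.log 2 ≤ (P + 3) * Real.log 2 :=
        mul_le_mul_of_nonneg_right (by linarith) hl2.le
      have h4 : (P + 3) * Real.log 2 = (β + δ) * L + 3 * Real.log 2 := by
        rw [add_mul, hPl]
      rw [one_mul] at c3
      linarith
    have h2 : Real.log ((2 : ℝ) ^ (e + 2)) ≤ Real.log n := by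
      rw [Real.log_pow]
      push_cast
      exact h1
    have h3 := (Real.log_le_log_iff (by positivity) hn0).mp h2
    exact_mod_cast h3
  obtain ⟨A, hA1, hA2⟩ := engine3 D t n e M S ht (by omega) (by rw [hM]; omega) hS2 hMcount hq
    (hS1.trans (Nat.pow_le_pow_right (by norm_num) (by omega))) hne
  refine ⟨A, hA1, density_of_card n _ (by omega) A hA2 _ ?_⟩
  push_cast
  have h7 : ((e : ℝ) + 1) * S + e + 3 ≤ (P + 2) * (L / Real.log 2 + 2) + (P + 4) := by
    have h8 : ((e : ℝ) + 1) * S ≤ (P + 2) * (L / Real.log 2 + 2) := by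
      apply mul_le_mul (by linarith) hS3 (Nat.cast_nonneg _) (by linarith)
    linarith
  calc (((e : ℝ) + 1) * S + e + 3) * Real.log 2 ≤
      ((P + 2) * (L / Real.log 2 + 2) + (P + 4)) * Real.log 2 :=
        mul_le_mul_of_nonneg_right h7 hl2.le
    _ = (β + δ) / Real.log 2 * L ^ 2 + ((3 * (β + δ) + 2) * L + 8 * Real.log 2) := by
        rw [hP]; field_simp; ring
    _ ≤ (β + δ) / Real.log 2 * L ^ 2 + ε / 2 * L ^ 2 := by linarith
    _ = (β / Real.log 2 + ε) * L ^ 2 := by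
        rw [hδ]; field_simp; ring

end Pool.Agent.H562.NP
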