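import Pool.Agent.H562.NP.Asym

/-! Asymptotic forms of the lower bounds, II. -/

set_option autoImplicit false

open Finset Filter

namespace Pool.Agent.H562.NP

theorem two_seven (h : ℕ) (hh : 1 ≤ h) : 4 * (h + 13) ≤ 2 ^ (7 * h) := by
  rw [pow_mul]
  have h1 : h < 2 ^ h := Nat.lt_two_pow_self
  have h2 : (2 ^ 7) ^ h = 64 ^ h * 2 ^ h := by
    rw [← mul_pow]; norm_num
  rw [h2]
  have h3 : 64 ^ 1 ≤ 64 ^ h := Nat.pow_le_pow_right (by norm_num) hh
  calc 4 * (h + 13) ≤ 64 * (h + 1) := by omega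
    _ ≤ 64 ^ h * 2 ^ h := Nat.mul_le_mul (by simpa using h3) h1

theorem lower4 (D : Set ℕ) (x₀ : ℕ)
    (hD : ∀ x, x₀ ≤ x → ((D ∩ Set.Ico x (2 * x)).ncard : ℝ) ≤ Real.exp (LL x ^ 2 / 60))
    (t : ℕ) (ht : 4 ≤ t) :
    ∃ n₀ : ℕ, ∀ n, n₀ ≤ n → ∃ A : Finset ℕ, Avoids D t n A ∧
      Real.exp (-(9 / 10 * LL n ^ 2)) ≤ (A.card : ℝ) / n := by
  have hl2 : 0 < Real.log 2 := Real.log_pos (by norm_num)
  have hl2' : (0.6931471803 : ℝ) < Real.log 2 := Real.log_two_gt_d9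
  have hl2'' : Real.log 2 < (0.6931471808 : ℝ) := Real.log_two_lt_d9
  have hev : ∀ᶠ L : ℝ in atTop, 12 ≤ L ∧
      (Real.log 2 / 3) * L + (Real.log (x₀ + 5) - Real.log 2) ≤ 1 / 1000 * L ^ 2 ∧
      (24 + (5 / 3) * Real.log 2 + Real.log 2 / 2) * L + 77 * Real.log 2 ≤ 1 / 20 * L ^ 2 ∧
      0 * L ^ 2 + (Real.log 2 / 2) * L + 28 * Real.log 2 ≤ Real.exp (1 * L) :=
    (eventually_ge_atTop 12).and ((lin_le_sq _ _ _ (by norm_num)).and
      ((lin_le_sq _ _ _ (by norm_num)).and (quad_le_exp _ _ _ _ one_pos)))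
  have hev2 := tendsto_LL.eventually hev
  obtain ⟨n₁, hn₁⟩ := eventually_atTop.mp hev2
  refine ⟨max n₁ 3, fun n hn => ?_⟩
  have hn3 : 3 ≤ n := le_trans (le_max_right _ _) hn
  obtain ⟨c0, c1, c2, c3⟩ := hn₁ n (le_trans (le_max_left _ _) hn)
  set L := LL n with hL
  obtain ⟨S, hS1, hS2, hS3⟩ := S_spec n hn3 (by linarith)
  rw [← hL] at hS3
  set h : ℕ := ⌊L / 6⌋₊ with hh
  have hh1 : (h : ℝ) ≤ L / 6 := Nat.floor_le (by linarith)
  have hh2 : L / 6 < h + 1 := Nat.lt_floor_add_one _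
  have hh3 : 1 ≤ h := by
    have : (0 : ℝ) < h := by linarith
    have h2 : 0 < h := by exact_mod_cast this
    omega
  set M : ℕ := ⌈Real.exp (L ^ 2 / 60)⌉₊ + x₀ + 3 with hM
  have hexp1 : 1 ≤ Real.exp (L ^ 2 / 60) := Real.one_le_exp (by positivity)
  have hMle : (M : ℝ) ≤ ((x₀ : ℝ) + 5) * Real.exp (L ^ 2 / 60) := by
    rw [hM]
    push_cast
    have h1 := Nat.ceil_lt_add_one (Real.exp_pos (L ^ 2 / 60)).le
    have h2 : (x₀ : ℝ) ≤ x₀ * Real.exp (L ^ 2 / 60) := by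
      have : (0 : ℝ) ≤ x₀ := Nat.cast_nonneg _
      nlinarith
    nlinarith
  have hMcount : ∀ x, 1 ≤ x → x ≤ n → (D ∩ Set.Ico x (2 * x)).ncard ≤ M := by
    intro x hx1 hxn
    rcases Nat.lt_or_ge x (max x₀ 3) with h1 | h1
    · have := ncard_le_self D x
      have : x ≤ x₀ + 3 := by
        rcases lt_max_iff.mp h1 with h2 | h2 <;> omega
      rw [hM]; omega
    · have h2 := hD x (le_trans (le_max_left _ _) h1)
      have hx3 : 3 ≤ x := le_trans (le_max_right _ _) h1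
      have hx3' : (3 : ℝ) ≤ x := by exact_mod_cast hx3
      have hlx : 1 ≤ Real.log x := by
        rw [Real.le_log_iff_exp_le (by linarith)]
        have := Real.exp_one_lt_d9
        linarith
      have hLL0 : 0 ≤ LL x := Real.log_nonneg hlx
      have hLLle : LL x ≤ L := by
        apply Real.log_le_log (by linarith)
        apply Real.log_le_log (by linarith)
        exact_mod_cast hxn
      have h3 : Real.exp (LL x ^ 2 / 60) ≤ Real.exp (L ^ 2 / 60) := by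
        apply Real.exp_le_exp.mpr
        have := pow_le_pow_left₀ hLL0 hLLle 2
        linarith
      have h5 : ((D ∩ Set.Ico x (2 * x)).ncard : ℝ) ≤ (⌈Real.exp (L ^ 2 / 60)⌉₊ : ℝ) :=
        h2.trans (h3.trans (Nat.le_ceil _))
      have h6 : (D ∩ Set.Ico x (2 * x)).ncard ≤ ⌈Real.exp (L ^ 2 / 60)⌉₊ := by
        exact_mod_cast h5
      rw [hM]; omega
  have hM2 : M ≤ 2 ^ (h * h) := by
    have h1 : (M : ℝ) ≤ 2 ^ (h * h) := by
      refine hMle.trans ?_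
      rw [two_pow_eq]
      have hx5 : (0 : ℝ) < (x₀ : ℝ) + 5 := by positivity
      calc ((x₀ : ℝ) + 5) * Real.exp (L ^ 2 / 60) =
          Real.exp (Real.log ((x₀ : ℝ) + 5)) * Real.exp (L ^ 2 / 60) := by
            rw [Real.exp_log hx5]
        _ = Real.exp (Real.log ((x₀ : ℝ) + 5) + L ^ 2 / 60) := by rw [← Real.exp_add]
        _ ≤ _ := by
          apply Real.exp_le_exp.mpr
          push_cast
          have h4 : (L / 6 - 1) * (L / 6 - 1) ≤ (h : ℝ) * h := by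
            apply mul_self_le_mul_self <;> linarith
          have h5 : (L / 6 - 1) * (L / 6 - 1) * Real.log 2 ≤ (h : ℝ) * h * Real.log 2 :=
            mul_le_mul_of_nonneg_right h4 hl2.le
          have h6 : (0 : ℝ) ≤ L ^ 2 := by positivity
          have h7 : L ^ 2 * (1 / 60 + 1 / 1000) ≤ L ^ 2 * (Real.log 2 / 36) := by
            apply mul_le_mul_of_nonneg_left _ h6
            linarith
          nlinarith
    exact_mod_cast h1
  have hq : 4 * ((h + 12 + 1) * M) * 64 ^ h ≤ 2 ^ ((h + 12 + 1) * h) := by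
    calc 4 * ((h + 12 + 1) * M) * 64 ^ h = (4 * (h + 13)) * M * 64 ^ h := by ring
      _ ≤ 2 ^ (7 * h) * 2 ^ (h * h) * 64 ^ h := by
        gcongr
        exact two_seven h hh3
      _ = 2 ^ ((h + 12 + 1) * h) := by
        rw [show (64 : ℕ) = 2 ^ 6 by norm_num, ← pow_mul, ← pow_add, ← pow_add]
        congr 1; ring
  have hne : 2 ^ (2 * (h + 12) + 4 + h) ≤ n := by
    have hn0 : (0 : ℝ) < n := by
      have : (3 : ℝ) ≤ n := by exact_mod_cast hn3
      linarith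
    have h2 : Real.log ((2 : ℝ) ^ (2 * (h + 12) + 4 + h)) ≤ Real.log n := by
      rw [Real.log_pow, ← exp_LL n hn3, ← hL]
      push_cast
      rw [one_mul] at c3
      nlinarith
    have h3 := (Real.log_le_log_iff (by positivity) hn0).mp h2
    exact_mod_cast h3
  obtain ⟨A, hA1, hA2⟩ := engine4 D t n (h + 12) h M S ht (by omega) hh3 (by rw [hM]; omega)
    hS2 hMcount hq (hS1.trans (Nat.pow_le_pow_right (by norm_num) (by omega))) hne
  refine ⟨A, hA1, density_of_card n _ (by omega) A hA2 _ ?_⟩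
  push_cast
  have h7 : (2 * ((h : ℝ) + 12) + 3 * h) * S + 2 * ((h : ℝ) + 12) + h + 5 ≤
      (5 * (L / 6) + 24) * (L / Real.log 2 + 2) + (L / 2 + 29) := by
    have h8 : (2 * ((h : ℝ) + 12) + 3 * h) * S ≤ (5 * (L / 6) + 24) * (L / Real.log 2 + 2) := by
      apply mul_le_mul (by linarith) hS3 (Nat.cast_nonneg _) (by linarith)
    linarith
  calc ((2 * ((h : ℝ) + 12) + 3 * h) * S + 2 * ((h : ℝ) + 12) + h + 5) * Real.log 2 ≤
      ((5 * (L / 6) + 24) * (L / Real.log 2 + 2) + (L / 2 + 29)) * Real.log 2 :=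
        mul_le_mul_of_nonneg_right h7 hl2.le
    _ = 5 / 6 * L ^ 2 +
        ((24 + (5 / 3) * Real.log 2 + Real.log 2 / 2) * L + 77 * Real.log 2) := by
        field_simp; ring
    _ ≤ 9 / 10 * L ^ 2 := by nlinarith

/-- A bounded number of differences in every `[x, 2 x)`. -/
theorem lower_bdd (D : Set ℕ) (M₀ x₀ : ℕ)
    (hD : ∀ x, x₀ ≤ x → (D ∩ Set.Ico x (2 * x)).ncard ≤ M₀) :
    ∃ C : ℝ, ∀ t, 3 ≤ t → ∃ n₀ : ℕ, ∀ n, n₀ ≤ n → ∃ A : Finset ℕ, Avoids D t n A ∧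
      Real.log n ^ (-C) ≤ (A.card : ℝ) / n := by
  have hl2 : 0 < Real.log 2 := Real.log_pos (by norm_num)
  have hl1 : Real.log 2 < 1 := by have := Real.log_two_lt_d9; linarith
  obtain ⟨M, hM⟩ : ∃ M, M = M₀ + x₀ + 1 := ⟨_, rfl⟩
  obtain ⟨e, he⟩ : ∃ e : ℕ, 256 * ((e + 1) * M) ≤ 2 ^ (e + 1) := by
    have h1 : (fun x : ℝ => x ^ 1) =o[atTop] fun x => Real.exp (Real.log 2 * x) :=
      isLittleO_pow_exp_pos_mul_atTop 1 hl2
    have h2 := h1.bound (show 0 < 1 / (256 * (M : ℝ) + 1) by positivity)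
    obtain ⟨k, hk, hk2⟩ := (tendsto_natCast_atTop_atTop.eventually h2).and
      (eventually_ge_atTop 1) |>.exists
    refine ⟨k - 1, ?_⟩
    rw [Nat.sub_add_cancel hk2]
    rw [pow_one, Real.norm_of_nonneg (Nat.cast_nonneg _),
      Real.norm_of_nonneg (Real.exp_pos _).le, one_div, inv_mul_eq_div,
      le_div_iff₀ (by positivity), mul_comm (Real.log 2), ← two_pow_eq] at hk
    have h3 : (256 : ℝ) * (k * M) ≤ 2 ^ k := by
      have : (0 : ℝ) ≤ k := Nat.cast_nonneg _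
      nlinarith
    exact_mod_cast h3
  refine ⟨(e : ℝ) + 2, fun t ht => ?_⟩
  have hev : ∀ᶠ n : ℕ in atTop, 1 ≤ LL n ∧
      ((e : ℝ) + 1) * (2 * Real.log 2) + ((e : ℝ) + 3) * Real.log 2 ≤ LL n ∧ 2 ^ (e + 2) ≤ n :=
    (tendsto_LL.eventually (eventually_ge_atTop 1)).and
      ((tendsto_LL.eventually (eventually_ge_atTop _)).and (eventually_ge_atTop _))
  obtain ⟨n₁, hn₁⟩ := eventually_atTop.mp hev
  refine ⟨max n₁ 3, fun n hn => ?_⟩
  have hn3 : 3 ≤ n := le_trans (le_max_right _ _) hn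
  obtain ⟨c0, c1, c2⟩ := hn₁ n (le_trans (le_max_left _ _) hn)
  obtain ⟨S, hS1, hS2, hS3⟩ := S_spec n hn3 (by linarith)
  have hMcount : ∀ x, 1 ≤ x → x ≤ n → (D ∩ Set.Ico x (2 * x)).ncard ≤ M := by
    intro x hx1 hxn
    rcases Nat.lt_or_ge x x₀ with h1 | h1
    · have := ncard_le_self D x
      omega
    · have := hD x h1
      omega
  obtain ⟨A, hA1, hA2⟩ := engine3 D t n e M S ht (by omega) (by omega) hS2 hMcount he
    (hS1.trans (Nat.pow_le_pow_right (by norm_num) (by omega))) c2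
  refine ⟨A, hA1, ?_⟩
  rw [rpow_LL n hn3, mul_neg]
  refine density_of_card n _ (by omega) A hA2 _ ?_
  push_cast
  have h8 : ((e : ℝ) + 1) * S ≤ ((e : ℝ) + 1) * (LL n / Real.log 2 + 2) :=
    mul_le_mul_of_nonneg_left hS3 (by positivity)
  calc (((e : ℝ) + 1) * S + e + 3) * Real.log 2 ≤
      (((e : ℝ) + 1) * (LL n / Real.log 2 + 2) + e + 3) * Real.log 2 :=
        mul_le_mul_of_nonneg_right (by linarith) hl2.le
    _ = ((e : ℝ) + 1) * LL n +
        (((e : ℝ) + 1) * (2 * Real.log 2) + ((e : ℝ) + 3) * Real.log 2) := by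
        field_simp; ring
    _ ≤ LL n * ((e : ℝ) + 2) := by linarith

end Pool.Agent.H562.NP
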