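import Pool.Agent.H562.NP.Asym2
import Pool.Graph.R_pool_sql_team_seeded_5cf16337.K3h46.RB.Szem

/-! Asymptotic forms of the upper bounds, and smooth differences. -/

set_option autoImplicit false

open Finset Filter

namespace Pool.Agent.H562.NP

/-- `⌊(k + 1) ^ β⌋`. -/
noncomputable def pw (β : ℝ) (k : ℕ) : ℕ := ⌊((k : ℝ) + 1) ^ β⌋₊

theorem pw_mono (β : ℝ) (hβ : 0 ≤ β) : Monotone (pw β) := by
  intro a b hab
  apply Nat.floor_le_floor
  apply Real.rpow_le_rpow (by positivity) _ hβ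
  have : (a : ℝ) ≤ b := by exact_mod_cast hab
  linarith

theorem one_le_pw (β : ℝ) (hβ : 0 ≤ β) (k : ℕ) : 1 ≤ pw β k := by
  apply Nat.le_floor
  push_cast
  apply Real.one_le_rpow _ hβ
  have : (0 : ℝ) ≤ k := Nat.cast_nonneg _
  linarith

theorem pw_count (β : ℝ) (hβ : 0 ≤ β) (x : ℕ) (hx : 2 ≤ x) :
    ((Mult (pw β) ∩ Set.Ico x (2 * x)).ncard : ℝ) ≤ (3 / Real.log 2) ^ β * Real.log x ^ β := by
  have hl2 : 0 < Real.log 2 := Real.log_pos (by norm_num)
  have hx' : (2 : ℝ) ≤ x := by exact_mod_cast hx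
  have hlx : Real.log 2 ≤ Real.log x := Real.log_le_log (by norm_num) hx'
  have h1 := Mult_count (pw β) (pw_mono β hβ) x
  have h2 : ((Mult (pw β) ∩ Set.Ico x (2 * x)).ncard : ℝ) ≤ (pw β (Nat.log 2 (2 * x)) : ℝ) := by
    exact_mod_cast h1
  refine h2.trans ?_
  rw [← Real.mul_rpow (by positivity) (by linarith)]
  refine (Nat.floor_le (by positivity)).trans (Real.rpow_le_rpow (by positivity) ?_ hβ)
  have h3 : 2 ^ Nat.log 2 (2 * x) ≤ 2 * x := Nat.pow_log_le_self 2 (by omega)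
  have h4 : (2 : ℝ) ^ Nat.log 2 (2 * x) ≤ 2 * x := by exact_mod_cast h3
  have h5 : (Nat.log 2 (2 * x) : ℝ) * Real.log 2 ≤ Real.log 2 + Real.log x := by
    rw [← Real.log_pow, ← Real.log_mul (by norm_num) (by positivity)]
    exact Real.log_le_log (by positivity) h4
  rw [div_mul_eq_mul_div, le_div_iff₀ hl2]
  nlinarith

/-- The choice of `N` and the sizes. -/
theorem N_spec (n : ℕ) (hn : 3 ≤ n) :
    ∃ N : ℕ, n ≤ 2 ^ N ∧ 2 ^ N ≤ 2 * n ∧ Real.exp (LL n) ≤ N := by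
  refine ⟨Nat.clog 2 n, Nat.le_pow_clog (by norm_num) n, ?_, ?_⟩
  · have h1 := Nat.pow_pred_clog_lt_self (b := 2) (by norm_num) (x := n) (by omega)
    have h2 : 0 < Nat.clog 2 n := Nat.clog_pos (by norm_num) (by omega)
    have h3 : Nat.clog 2 n = (Nat.clog 2 n).pred + 1 := (Nat.succ_pred_eq_of_pos h2).symm
    rw [h3, pow_succ]
    omega
  · rw [exp_LL n hn]
    have h1 : (n : ℝ) ≤ 2 ^ Nat.clog 2 n := by exact_mod_cast Nat.le_pow_clog (by norm_num) n
    have hn0 : (0 : ℝ) < n := by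
      have : (3 : ℝ) ≤ n := by exact_mod_cast hn
      linarith
    have h2 : Real.log n ≤ (Nat.clog 2 n : ℝ) * Real.log 2 := by
      rw [← Real.log_pow]
      exact Real.log_le_log hn0 h1
    have hl1 : Real.log 2 < 1 := by have := Real.log_two_lt_d9; linarith
    have h3 : (0 : ℝ) ≤ (Nat.clog 2 n : ℝ) := Nat.cast_nonneg _
    nlinarith

theorem low_aux (B β δ ε L h S : ℝ) (hβ : 0 < β) (hB0 : 0 < B) (hδ0 : 0 < δ) (hδ1 : δ ≤ 1 / 2)
    (hδ2 : B * δ ≤ ε / 2) (c0 : 1 ≤ L) (c1 : Real.log 2 + (β + 1) / B ≤ L)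
    (c3 : (β + B * Real.log 2 + Real.log 2 + 1) * L + Real.log 6 ≤ ε / 2 * L ^ 2)
    (e1 : B * L - β - 1 ≤ h) (hS2 : (1 - δ) * L / Real.log 2 < S + 1) (hS0 : 0 ≤ S) :
    (B - ε) * L ^ 2 + Real.log 6 ≤ h * S * Real.log 2 := by
  have hl2 : 0 < Real.log 2 := Real.log_pos (by norm_num)
  have e2 : (1 - δ) * L / Real.log 2 - 1 ≤ S := by linarith
  have e3 : 0 ≤ B * L - β - 1 := by
    have h5 : B * ((β + 1) / B) = β + 1 := by field_simp
    have h6 : B * (Real.log 2 + (β + 1) / B) ≤ B * L := mul_le_mul_of_nonneg_left c1 hB0.le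
    have h7 : 0 ≤ B * Real.log 2 := by positivity
    rw [mul_add, h5] at h6
    linarith
  have e4 : (B * L - β - 1) * ((1 - δ) * L / Real.log 2 - 1) ≤ h * S := by
    calc (B * L - β - 1) * ((1 - δ) * L / Real.log 2 - 1) ≤ (B * L - β - 1) * S :=
          mul_le_mul_of_nonneg_left e2 e3
      _ ≤ _ := mul_le_mul_of_nonneg_right e1 hS0
  have e5 : (B * L - β - 1) * ((1 - δ) * L / Real.log 2 - 1) * Real.log 2 =
      (B * L - β - 1) * ((1 - δ) * L - Real.log 2) := by field_simp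
  have e6 : (B * L - β - 1) * ((1 - δ) * L - Real.log 2) ≤ h * S * Real.log 2 := by
    rw [← e5]
    exact mul_le_mul_of_nonneg_right e4 hl2.le
  have e7 : B * δ * L ^ 2 ≤ ε / 2 * L ^ 2 := mul_le_mul_of_nonneg_right hδ2 (by positivity)
  have e8 : (β + 1) * ((1 - δ) * L) ≤ (β + 1) * L :=
    mul_le_mul_of_nonneg_left (by nlinarith) (by linarith)
  have e9 : 0 ≤ (β + 1) * Real.log 2 := by positivity
  have e10 : (B * L - β - 1) * ((1 - δ) * L - Real.log 2) =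
      B * L ^ 2 - B * δ * L ^ 2 - B * Real.log 2 * L - (β + 1) * ((1 - δ) * L) +
        (β + 1) * Real.log 2 := by ring
  have e11 : 0 ≤ Real.log 2 * L := by positivity
  rw [e10] at e6
  have e12 : (β + B * Real.log 2 + Real.log 2 + 1) * L =
      (β + 1) * L + B * Real.log 2 * L + Real.log 2 * L := by ring
  rw [e12] at c3
  have e13 : (B - ε) * L ^ 2 = B * L ^ 2 - ε / 2 * L ^ 2 - ε / 2 * L ^ 2 := by ring
  rw [e13]
  linarith

theorem upper3 (β ε : ℝ) (hβ : 0 < β) (hε : 0 < ε) :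
    ∃ n₀ : ℕ, ∀ n, n₀ ≤ n → ∀ A : Finset ℕ, Avoids (Mult (pw β)) 3 n A →
      (A.card : ℝ) / n ≤ Real.exp (-((β / Real.log 2 - ε) * LL n ^ 2)) := by
  have hl2 : 0 < Real.log 2 := Real.log_pos (by norm_num)
  have hl1 : Real.log 2 < 1 := by have := Real.log_two_lt_d9; linarith
  obtain ⟨δ, hδ⟩ : ∃ δ : ℝ, δ = min (1 / 2) (ε * Real.log 2 / (2 * β)) := ⟨_, rfl⟩
  have hδ0 : 0 < δ := by rw [hδ]; exact lt_min (by norm_num) (by positivity)
  have hδ1 : δ ≤ 1 / 2 := by rw [hδ]; exact min_le_left _ _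
  have hδ2 : β / Real.log 2 * δ ≤ ε / 2 := by
    have h1 : δ ≤ ε * Real.log 2 / (2 * β) := by rw [hδ]; exact min_le_right _ _
    calc β / Real.log 2 * δ ≤ β / Real.log 2 * (ε * Real.log 2 / (2 * β)) :=
          mul_le_mul_of_nonneg_left h1 (by positivity)
      _ = ε / 2 := by field_simp
  set B : ℝ := β / Real.log 2 with hB
  have hB0 : 0 < B := by positivity
  have hev : ∀ᶠ L : ℝ in atTop, 1 ≤ L ∧ Real.log 2 + (β + 1) / B ≤ L ∧
      (B / Real.log 2) * L ^ 2 + (2 * B) * L + 0 ≤ Real.exp (δ * L) ∧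
      (β + B * Real.log 2 + Real.log 2 + 1) * L + Real.log 6 ≤ ε / 2 * L ^ 2 :=
    (eventually_ge_atTop 1).and ((eventually_ge_atTop _).and
      ((quad_le_exp _ _ _ _ hδ0).and (lin_le_sq _ _ _ (by positivity))))
  have hev2 := tendsto_LL.eventually hev
  obtain ⟨n₁, hn₁⟩ := eventually_atTop.mp hev2
  refine ⟨max n₁ 3, fun n hn A hA => ?_⟩
  have hn3 : 3 ≤ n := le_trans (le_max_right _ _) hn
  obtain ⟨c0, c1, c2, c3⟩ := hn₁ n (le_trans (le_max_left _ _) hn)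
  set L := LL n with hL
  obtain ⟨N, hN1, hN2, hN3⟩ := N_spec n hn3
  rw [← hL] at hN3
  have hn0 : (0 : ℝ) < n := by
    have : (3 : ℝ) ≤ n := by exact_mod_cast hn3
    linarith
  -- `h` and `S`
  have hBl : B * Real.log 2 = β := by rw [hB]; field_simp
  have hP0 : 0 ≤ B * (L - Real.log 2) := by
    apply mul_nonneg hB0.le
    have : 0 ≤ (β + 1) / B := by positivity
    linarith
  set h : ℕ := ⌊B * (L - Real.log 2)⌋₊ with hh
  have hh1 : (h : ℝ) ≤ B * (L - Real.log 2) := Nat.floor_le hP0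
  have hh2 : B * (L - Real.log 2) < h + 1 := Nat.lt_floor_add_one _
  have hS0 : 0 ≤ (1 - δ) * L / Real.log 2 := by
    apply div_nonneg _ hl2.le
    apply mul_nonneg <;> linarith
  set S : ℕ := ⌊(1 - δ) * L / Real.log 2⌋₊ with hS
  have hS1 : (S : ℝ) ≤ (1 - δ) * L / Real.log 2 := Nat.floor_le hS0
  have hS2 : (1 - δ) * L / Real.log 2 < S + 1 := Nat.lt_floor_add_one _
  have h2S : (2 : ℝ) ^ S ≤ Real.exp ((1 - δ) * L) := by
    rw [two_pow_eq]
    apply Real.exp_le_exp.mpr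
    rwa [le_div_iff₀ hl2] at hS1
  have hhS : (h : ℝ) * S + 2 * h ≤ Real.exp (δ * L) := by
    have e1 : (h : ℝ) ≤ B * L := by nlinarith
    have e2 : (S : ℝ) ≤ L / Real.log 2 := by
      have e5 : (1 - δ) * L ≤ L := by nlinarith
      exact hS1.trans (div_le_div_of_nonneg_right e5 hl2.le)
    have e3 : (h : ℝ) * S ≤ (B * L) * (L / Real.log 2) :=
      mul_le_mul e1 e2 (Nat.cast_nonneg _) (by positivity)
    have e4 : (B * L) * (L / Real.log 2) = (B / Real.log 2) * L ^ 2 := by ring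
    linarith
  have hhS0 : (0 : ℝ) ≤ (h : ℝ) * S + 2 * h := by positivity
  have hprod : (2 : ℝ) ^ S * ((h : ℝ) * S + 2 * h) ≤ N := by
    calc (2 : ℝ) ^ S * ((h : ℝ) * S + 2 * h) ≤ Real.exp ((1 - δ) * L) * Real.exp (δ * L) :=
          mul_le_mul h2S hhS hhS0 (Real.exp_pos _).le
      _ = Real.exp L := by rw [← Real.exp_add]; congr 1; ring
      _ ≤ N := hN3
  have hprod' : 2 ^ S * (h * S + 2 * h) ≤ N := by exact_mod_cast hprod
  have hSN : h * S ≤ N := by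
    have : h * S + 2 * h ≤ 2 ^ S * (h * S + 2 * h) := Nat.le_mul_of_pos_left _ (by positivity)
    omega
  have hω : ∀ k, N ≤ 2 * k → 2 ^ h ≤ pw β k + 1 := by
    intro k hk
    have h1 : (2 : ℝ) ^ h ≤ ((k : ℝ) + 1) ^ β := by
      rw [two_pow_eq]
      have hk' : (N : ℝ) ≤ 2 * k := by exact_mod_cast hk
      have h2 : Real.exp (L - Real.log 2) ≤ (k : ℝ) + 1 := by
        rw [Real.exp_sub, Real.exp_log (by norm_num)]
        linarith
      calc Real.exp ((h : ℝ) * Real.log 2) ≤ Real.exp ((L - Real.log 2) * β) := by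
            apply Real.exp_le_exp.mpr
            calc (h : ℝ) * Real.log 2 ≤ B * (L - Real.log 2) * Real.log 2 :=
                  mul_le_mul_of_nonneg_right hh1 hl2.le
              _ = (L - Real.log 2) * (B * Real.log 2) := by ring
              _ = _ := by rw [hBl]
        _ = Real.exp (L - Real.log 2) ^ β := by rw [Real.exp_mul]
        _ ≤ _ := Real.rpow_le_rpow (Real.exp_pos _).le h2 hβ.le
    have h3 : 2 ^ h ≤ pw β k := by
      apply Nat.le_floor
      push_cast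
      exact h1
    omega
  have hmain := upper_fin (pw β) 3 n N h 1 S le_rfl A hA hN1 hN2 hω le_rfl
    (fun X _ hX => noAP_two X hX) (hprod'.trans (Nat.le_add_right _ _)) hSN
  rw [one_pow, one_mul] at hmain
  have hmain' : (A.card : ℝ) * 2 ^ (h * S) ≤ 6 * n := by exact_mod_cast hmain
  rw [div_le_iff₀ hn0]
  have hlow : (B - ε) * L ^ 2 + Real.log 6 ≤ (h : ℝ) * S * Real.log 2 := by
    have e1 : B * L - β - 1 ≤ h := by
      have : B * (L - Real.log 2) = B * L - β := by rw [mul_sub, hBl]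
      linarith
    exact low_aux B β δ ε L h S hβ hB0 hδ0 hδ1 hδ2 c0 c1 c3 e1 hS2 (Nat.cast_nonneg _)
  have h7 : Real.exp ((B - ε) * L ^ 2 + Real.log 6) ≤ (2 : ℝ) ^ (h * S) := by
    rw [two_pow_eq]
    apply Real.exp_le_exp.mpr
    push_cast
    exact hlow
  rw [Real.exp_add, Real.exp_log (by norm_num)] at h7
  have h8 : (A.card : ℝ) * (Real.exp ((B - ε) * L ^ 2) * 6) ≤ 6 * n :=
    (mul_le_mul_of_nonneg_left h7 (Nat.cast_nonneg _)).trans hmain'
  have h9 : Real.exp (-((B - ε) * L ^ 2)) * Real.exp ((B - ε) * L ^ 2) = 1 := by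
    rw [← Real.exp_add]; simp
  have h10 : 0 < Real.exp (-((B - ε) * L ^ 2)) := Real.exp_pos _
  have h11 : (A.card : ℝ) * Real.exp ((B - ε) * L ^ 2) ≤ n := by linarith
  calc (A.card : ℝ) = Real.exp (-((B - ε) * L ^ 2)) *
        ((A.card : ℝ) * Real.exp ((B - ε) * L ^ 2)) := by
          rw [mul_left_comm, h9, mul_one]
    _ ≤ Real.exp (-((B - ε) * L ^ 2)) * n := mul_le_mul_of_nonneg_left h11 h10.le

/-- Szemerédi's theorem in the form which is needed. -/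
theorem szem_form (q p : ℕ) : ∃ h : ℕ, ∃ r : ℕ, 1 ≤ r ∧ r * 2 ^ p ≤ 2 ^ h ∧
    ∀ X : Finset ℕ, X ⊆ Finset.range (2 ^ h) → NoAP (q + 1) X → X.card ≤ r := by
  obtain ⟨D, hD1, hD⟩ := Pool.Agent.K3h46.RB.szem q (1 / 2 ^ p) (by positivity)
  refine ⟨D + p, 2 ^ D, Nat.one_le_two_pow, by rw [pow_add], fun X hX hN => ?_⟩
  by_contra hcon
  push Not at hcon
  obtain ⟨a, d, hd, had⟩ := hD (2 ^ (D + p)) (by
    have h1 : D < 2 ^ D := Nat.lt_two_pow_self
    have h2 : 2 ^ D ≤ 2 ^ (D + p) := Nat.pow_le_pow_right (by norm_num) (by omega)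
    omega) X hX (by
    push_cast
    rw [pow_add, div_mul_eq_mul_div, one_mul, mul_div_assoc, div_self (by positivity), mul_one]
    exact_mod_cast hcon.le)
  obtain ⟨j, hj, hj2⟩ := hN a d hd
  exact hj2 (had j (by omega))

theorem upper_weak (ω : ℕ → ℕ) (hω : Tendsto ω atTop atTop) (t : ℕ) (ht : 3 ≤ t) (K : ℝ) :
    ∃ n₀ : ℕ, ∀ n, n₀ ≤ n → ∀ A : Finset ℕ, Avoids (Mult ω) t n A →
      (A.card : ℝ) / n ≤ Real.log n ^ (-K) := by
  have hl2 : 0 < Real.log 2 := Real.log_pos (by norm_num)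
  have hl1 : Real.log 2 < 1 := by have := Real.log_two_lt_d9; linarith
  obtain ⟨p, hp⟩ : ∃ p : ℕ, 2 * K + 2 ≤ p := exists_nat_ge _
  obtain ⟨h, r, hr1, hr2, hr3⟩ := szem_form (t - 2) p
  obtain ⟨k₀, hk₀⟩ := eventually_atTop.mp (hω.eventually (eventually_ge_atTop (2 ^ h)))
  have hev : ∀ᶠ L : ℝ in atTop, 1 ≤ L ∧ (2 * (k₀ : ℝ) + 1) ≤ L ∧
      0 * L ^ 2 + ((h : ℝ) / (2 * Real.log 2)) * L + (2 * h : ℝ) ≤ Real.exp ((1 / 2) * L) ∧
      (p * Real.log 2 + Real.log 6) ≤ L :=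
    (eventually_ge_atTop 1).and ((eventually_ge_atTop _).and
      ((quad_le_exp _ _ _ _ (by norm_num)).and (eventually_ge_atTop _)))
  have hev2 := tendsto_LL.eventually hev
  obtain ⟨n₁, hn₁⟩ := eventually_atTop.mp hev2
  refine ⟨max n₁ 3, fun n hn A hA => ?_⟩
  have hn3 : 3 ≤ n := le_trans (le_max_right _ _) hn
  obtain ⟨c0, c1, c2, c3⟩ := hn₁ n (le_trans (le_max_left _ _) hn)
  rw [rpow_LL n hn3]
  set L := LL n with hL
  obtain ⟨N, hN1, hN2, hN3⟩ := N_spec n hn3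
  rw [← hL] at hN3
  have hn0 : (0 : ℝ) < n := by
    have : (3 : ℝ) ≤ n := by exact_mod_cast hn3
    linarith
  have hS0 : 0 ≤ L / (2 * Real.log 2) := by positivity
  set S : ℕ := ⌊L / (2 * Real.log 2)⌋₊ with hS
  have hS1 : (S : ℝ) ≤ L / (2 * Real.log 2) := Nat.floor_le hS0
  have hS2 : L / (2 * Real.log 2) < S + 1 := Nat.lt_floor_add_one _
  have h2S : (2 : ℝ) ^ S ≤ Real.exp ((1 / 2) * L) := by
    rw [two_pow_eq]
    apply Real.exp_le_exp.mpr
    rw [le_div_iff₀ (by positivity)] at hS1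
    linarith
  have hhS : (h : ℝ) * S + 2 * h ≤ Real.exp ((1 / 2) * L) := by
    have e1 : (h : ℝ) * S ≤ (h : ℝ) * (L / (2 * Real.log 2)) :=
      mul_le_mul_of_nonneg_left hS1 (Nat.cast_nonneg _)
    have e4 : (h : ℝ) * (L / (2 * Real.log 2)) = ((h : ℝ) / (2 * Real.log 2)) * L := by ring
    linarith
  have hprod : (2 : ℝ) ^ S * ((h : ℝ) * S + 2 * h) ≤ N := by
    calc (2 : ℝ) ^ S * ((h : ℝ) * S + 2 * h) ≤
        Real.exp ((1 / 2) * L) * Real.exp ((1 / 2) * L) :=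
          mul_le_mul h2S hhS (by positivity) (Real.exp_pos _).le
      _ = Real.exp L := by rw [← Real.exp_add]; congr 1; ring
      _ ≤ N := hN3
  have hprod' : 2 ^ S * (h * S + 2 * h) ≤ N := by exact_mod_cast hprod
  have hSN : h * S ≤ N := by
    have : h * S + 2 * h ≤ 2 ^ S * (h * S + 2 * h) := Nat.le_mul_of_pos_left _ (by positivity)
    omega
  have hωk : ∀ k, N ≤ 2 * k → 2 ^ h ≤ ω k + 1 := by
    intro k hk
    have h1 : k₀ ≤ k := by
      have h2 : 2 * (k₀ : ℝ) + 1 ≤ N := by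
        have := Real.add_one_le_exp L
        linarith
      have h3 : 2 * k₀ + 1 ≤ N := by exact_mod_cast h2
      omega
    have := hk₀ k h1
    omega
  have hmain := upper_fin ω t n N h r S ht A hA hN1 hN2 hωk hr1
    (fun X hX hX2 => hr3 X hX (by
      have : t - 2 + 1 = t - 1 := by omega
      rw [this]; exact hX2)) (hprod'.trans (Nat.le_add_right _ _)) hSN
  -- `|A| 2 ^ (h S) ≤ r ^ S 6 n` and `r 2 ^ p ≤ 2 ^ h`
  have h3 : A.card * 2 ^ (p * S) * r ^ S ≤ (6 * n) * r ^ S := by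
    calc A.card * 2 ^ (p * S) * r ^ S = A.card * (r * 2 ^ p) ^ S := by
          rw [mul_pow, ← pow_mul]; ring
      _ ≤ A.card * (2 ^ h) ^ S := by gcongr
      _ = A.card * 2 ^ (h * S) := by rw [pow_mul]
      _ ≤ r ^ S * (6 * n) := hmain
      _ = _ := by ring
  have h4 : A.card * 2 ^ (p * S) ≤ 6 * n :=
    Nat.le_of_mul_le_mul_right h3 (Nat.one_le_pow _ _ hr1)
  have h4' : (A.card : ℝ) * 2 ^ (p * S) ≤ 6 * n := by exact_mod_cast h4
  rw [div_le_iff₀ hn0]
  have h7 : Real.exp (K * L + Real.log 6) ≤ (2 : ℝ) ^ (p * S) := by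
    rw [two_pow_eq]
    apply Real.exp_le_exp.mpr
    push_cast
    have hp0 : (0 : ℝ) ≤ p := Nat.cast_nonneg _
    have e1 : (p : ℝ) * (L / (2 * Real.log 2) - 1) * Real.log 2 ≤ (p : ℝ) * S * Real.log 2 := by
      apply mul_le_mul_of_nonneg_right _ hl2.le
      exact mul_le_mul_of_nonneg_left (by linarith) hp0
    have e2 : (p : ℝ) * (L / (2 * Real.log 2) - 1) * Real.log 2 =
        p * L / 2 - p * Real.log 2 := by field_simp
    have e3 : (2 * K + 2) * L ≤ p * L := mul_le_mul_of_nonneg_right hp (by linarith)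
    linarith
  rw [Real.exp_add, Real.exp_log (by norm_num)] at h7
  have h8 : (A.card : ℝ) * (Real.exp (K * L) * 6) ≤ 6 * n :=
    (mul_le_mul_of_nonneg_left h7 (Nat.cast_nonneg _)).trans h4'
  have h9 : Real.exp (L * -K) * Real.exp (K * L) = 1 := by
    rw [← Real.exp_add]; simp [mul_comm]
  have h10 : 0 < Real.exp (L * -K) := Real.exp_pos _
  have h11 : (A.card : ℝ) * Real.exp (K * L) ≤ n := by linarith
  calc (A.card : ℝ) = Real.exp (L * -K) * ((A.card : ℝ) * Real.exp (K * L)) := by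
          rw [mul_left_comm, h9, mul_one]
    _ ≤ Real.exp (L * -K) * n := mul_le_mul_of_nonneg_left h11 h10.le

end Pool.Agent.H562.NP
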