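import Pool.Agent.H562.NP.PS

/-! Colourings without monochromatic near progressions, for the differences of one range. -/

set_option autoImplicit false

open Finset

namespace Pool.Agent.H562.NP

theorem tol (n d w K K' c : ℕ) (hn : 1 ≤ n) (hw : w * n < d ^ 2) (hK : 2 ^ K * d ≤ n)
    (hc : K' + c = 2 * K) : (w : ℝ) * (2 ^ K' / n) ≤ 1 / 2 ^ c := by
  have hn0 : (0 : ℝ) < n := by exact_mod_cast hn
  have h1 : (w : ℝ) * n ≤ d ^ 2 := by exact_mod_cast hw.le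
  have h2 : (2 : ℝ) ^ K * d ≤ n := by exact_mod_cast hK
  have h3 : ((2 : ℝ) ^ K * d) ^ 2 ≤ (n : ℝ) ^ 2 := pow_le_pow_left₀ (by positivity) h2 2
  have h4 : (2 : ℝ) ^ K' * 2 ^ c = (2 ^ K) ^ 2 := by
    rw [← pow_add, hc, ← pow_mul]; congr 1; ring
  rw [mul_div_assoc', div_le_div_iff₀ hn0 (by positivity), one_mul]
  have h5 : (w : ℝ) * 2 ^ K' * 2 ^ c * n ≤ n * n := by
    calc (w : ℝ) * 2 ^ K' * 2 ^ c * n = (2 ^ K' * 2 ^ c) * (w * n) := by ring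
      _ = (2 ^ K) ^ 2 * (w * n) := by rw [h4]
      _ ≤ (2 ^ K) ^ 2 * d ^ 2 := mul_le_mul_of_nonneg_left h1 (by positivity)
      _ = ((2 : ℝ) ^ K * d) ^ 2 := by ring
      _ ≤ (n : ℝ) ^ 2 := h3
      _ = n * n := by ring
  exact le_of_mul_le_mul_right h5 hn0

theorem close_of_floor (P x y : ℝ) (hP : 0 < P) (hx : 0 ≤ x) (hy : 0 ≤ y)
    (h : ⌊P * x⌋₊ = ⌊P * y⌋₊) : |y - x| < 1 / P := by
  have f1 := Nat.floor_le (a := P * x) (by positivity)
  have f2 := Nat.lt_floor_add_one (P * x)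
  have f3 := Nat.floor_le (a := P * y) (by positivity)
  have f4 := Nat.lt_floor_add_one (P * y)
  rw [← h] at f3 f4
  have h1 : P * |y - x| < 1 := by
    have e0 : P * |y - x| = |P * (y - x)| := by rw [abs_mul, abs_of_pos hP]
    rw [e0, abs_lt]
    constructor <;> nlinarith
  rw [lt_div_iff₀ hP]
  linarith

open Classical in
/-- One range of differences, blocks number one and two. -/
theorem color3 (D : Set ℕ) (n e H K : ℕ) (hn : 1 ≤ n) (hH : 1 ≤ H)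
    (hHc : ∀ d ∈ D, d ≤ n → ((Finset.Ico (d / 2 ^ (e + 1) + 1) d).filter (· ∈ D)).card ≤ H)
    (hq : 256 * H ≤ 2 ^ (e + 1)) (hK : e + 1 ≤ K) :
    ∃ f : ℕ → ℕ, (∀ a, f a < 2 ^ (e + 1)) ∧ ∀ d ∈ D, 2 ^ K * d ≤ n →
      n ≤ 2 ^ (2 * K - (e + 1)) * d → ∀ w b a1 a2 : ℕ, w * n < d ^ 2 →
      b + d ≤ a1 → a1 ≤ b + d + w → b + 2 * d ≤ a2 → a2 ≤ b + 2 * d + w → f a1 ≠ f a2 := by
  obtain ⟨K', hK'⟩ : ∃ K', K' = 2 * K - (e + 1) := ⟨_, rfl⟩
  have hKK : K' + (e + 1) = 2 * K := by omega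
  rw [← hK']
  have hn0 : (0 : ℝ) < n := by exact_mod_cast hn
  set D' := (Finset.range (n + 1)).filter (fun d => d ∈ D ∧ 2 ^ K * d ≤ n ∧ n ≤ 2 ^ K' * d)
    with hD'
  set lam : ℝ := 2 ^ K' / n with hlam
  have hlamp : 0 ≤ lam := by positivity
  obtain ⟨θ', hθ1, hθ2⟩ := peresSchlag D' lam e 1 H hH
    (by
      intro d hd
      rw [hD', Finset.mem_filter] at hd
      rw [hlam, div_mul_eq_mul_div, le_div_iff₀ hn0, one_mul]
      exact_mod_cast hd.2.2.2)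
    (by
      intro d hd
      rw [hD', Finset.mem_filter, Finset.mem_range] at hd
      refine le_trans (Finset.card_le_card ?_) (hHc d hd.2.1 (by omega))
      intro x hx
      rw [Finset.mem_filter] at hx ⊢
      refine ⟨hx.1, ?_⟩
      have := hx.2
      rw [hD', Finset.mem_filter] at this
      exact this.2.1)
    (by
      rw [pow_one, mul_one]
      calc 4 * H * 64 = 256 * H := by ring
        _ ≤ _ := hq)
  set θ := θ' 0 with hθ
  have hθ0 := (hθ1 0).1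
  have hθle := (hθ1 0).2
  refine ⟨fun a => ⌊2 ^ (e + 1) * Int.fract ((a : ℝ) * (lam * θ))⌋₊, fun a => ?_, ?_⟩
  · have h1 : 2 ^ (e + 1) * Int.fract ((a : ℝ) * (lam * θ)) < 2 ^ (e + 1) := by
      have h2 := Int.fract_lt_one ((a : ℝ) * (lam * θ))
      have h3 : (0 : ℝ) < 2 ^ (e + 1) := by positivity
      nlinarith
    rw [Nat.floor_lt (by
      have := Int.fract_nonneg ((a : ℝ) * (lam * θ))
      positivity)]
    push_cast
    exact h1
  · intro d hdD hd1 hd2 w b a1 a2 hw h1 h2 h3 h4 heq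
    simp only at heq
    have hdmem : d ∈ D' := by
      rw [hD', Finset.mem_filter, Finset.mem_range]
      refine ⟨?_, hdD, hd1, hd2⟩
      have : d ≤ 2 ^ K * d := Nat.le_mul_of_pos_left _ (by positivity)
      omega
    obtain ⟨i, hi⟩ := hθ2 d hdmem
    have hi0 : i = 0 := Subsingleton.elim _ _
    rw [hi0, ← hθ] at hi
    set x1 := (a1 : ℝ) * (lam * θ) with hx1
    set x2 := (a2 : ℝ) * (lam * θ) with hx2
    have hz := hi (⌊x2⌋ - ⌊x1⌋)
    have hfr : |Int.fract x2 - Int.fract x1| < 1 / 2 ^ (e + 1) :=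
      close_of_floor (2 ^ (e + 1)) _ _ (by positivity) (Int.fract_nonneg _)
        (Int.fract_nonneg _) heq
    have hw' : (w : ℝ) * lam ≤ 1 / 2 ^ (e + 1) := tol n d w K K' (e + 1) hn hw hd1 hKK
    have c1 : (b : ℝ) + d ≤ a1 := by exact_mod_cast h1
    have c2 : (a1 : ℝ) ≤ b + d + w := by exact_mod_cast h2
    have c3 : (b : ℝ) + 2 * d ≤ a2 := by exact_mod_cast h3
    have c4 : (a2 : ℝ) ≤ b + 2 * d + w := by exact_mod_cast h4
    have hu : |((a2 : ℝ) - a1 - d) * (lam * θ)| ≤ 1 / 2 ^ (e + 1) := by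
      rw [abs_mul]
      have e1 : |(a2 : ℝ) - a1 - d| ≤ w := by
        rw [abs_le]; constructor <;> linarith
      have e2 : |lam * θ| ≤ lam := by
        rw [abs_of_nonneg (mul_nonneg hlamp hθ0)]
        nlinarith
      calc _ ≤ (w : ℝ) * lam := mul_le_mul e1 e2 (abs_nonneg _) (Nat.cast_nonneg _)
        _ ≤ _ := hw'
    have hkey : lam * d * θ - ((⌊x2⌋ - ⌊x1⌋ : ℤ) : ℝ) =
        (Int.fract x2 - Int.fract x1) - ((a2 : ℝ) - a1 - d) * (lam * θ) := by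
      have g1 := Int.floor_add_fract x1
      have g2 := Int.floor_add_fract x2
      have g3 : x2 - x1 = ((a2 : ℝ) - a1) * (lam * θ) := by rw [hx1, hx2]; ring
      push_cast
      linear_combination g3 + g1 - g2
    rw [hkey] at hz
    have h9 := abs_sub (Int.fract x2 - Int.fract x1) (((a2 : ℝ) - a1 - d) * (lam * θ))
    have h10 : (1 : ℝ) / 2 ^ e = 1 / 2 ^ (e + 1) + 1 / 2 ^ (e + 1) := by
      rw [pow_succ]; field_simp; ring
    linarith

/-- The geometric heart for three points: three points of a thin spherical shell in a small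
cube, with `y₁ + y₃ ≈ 2 y₂`, are close to each other. -/
theorem shell (k e : ℕ) (hk : 1 ≤ k) (y1 y2 y3 E : Fin k → ℝ) (i0 : Fin k)
    (h2 : ∀ i, 0 ≤ y2 i ∧ y2 i < 1 / 4)
    (hE : ∀ i, y1 i + y3 i - 2 * y2 i = E i)
    (hEs : ∀ i, |E i| ≤ 1 / 2 ^ (2 * e + 3 + k))
    (hr1 : ∑ i, y1 i ^ 2 < ∑ i, y2 i ^ 2 + 1 / (16 * 4 ^ e))
    (hr3 : ∑ i, y3 i ^ 2 < ∑ i, y2 i ^ 2 + 1 / (16 * 4 ^ e))
    (hi : 1 / 2 ^ e - 1 / 2 ^ (2 * e + 3 + k) ≤ |y3 i0 - y1 i0|) : False := by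
  set τ : ℝ := 1 / 2 ^ (2 * e + 3 + k) with hτ
  set s : ℝ := 1 / 2 ^ e with hs
  have hs0 : 0 < s := by positivity
  have hs1 : s ≤ 1 := by
    rw [hs, div_le_one (by positivity)]
    exact one_le_pow₀ (by norm_num)
  have hτ0 : 0 < τ := by positivity
  have hs2 : (1 : ℝ) / (16 * 4 ^ e) = s ^ 2 / 16 := by
    rw [hs, div_pow, one_pow, ← pow_mul, mul_comm e 2, pow_mul]
    norm_num
    ring
  have hτs : τ = s ^ 2 / 8 * (1 / 2 ^ k) := by
    rw [hτ, hs, div_pow, one_pow, ← pow_mul, pow_add, pow_add, mul_comm e 2]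
    field_simp
    norm_num
  have hk2 : (k : ℝ) * (1 / 2 ^ k) ≤ 1 := by
    rw [mul_one_div, div_le_one (by positivity)]
    exact_mod_cast (Nat.lt_two_pow_self (n := k)).le
  have hkhalf : (1 : ℝ) / 2 ^ k ≤ 1 / 2 := by
    rw [div_le_div_iff₀ (by positivity) (by norm_num), one_mul, one_mul]
    calc (2 : ℝ) = 2 ^ 1 := by norm_num
      _ ≤ 2 ^ k := pow_le_pow_right₀ (by norm_num) hk
  have hs2pos : 0 < s ^ 2 := by positivity
  have hkτ : (k : ℝ) * τ ≤ s ^ 2 / 8 := by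
    rw [hτs]
    calc (k : ℝ) * (s ^ 2 / 8 * (1 / 2 ^ k)) = s ^ 2 / 8 * ((k : ℝ) * (1 / 2 ^ k)) := by ring
      _ ≤ s ^ 2 / 8 * 1 := mul_le_mul_of_nonneg_left hk2 (by positivity)
      _ = s ^ 2 / 8 := by ring
  have hττ : τ ≤ s ^ 2 / 16 := by
    rw [hτs]
    calc s ^ 2 / 8 * (1 / 2 ^ k) ≤ s ^ 2 / 8 * (1 / 2) :=
          mul_le_mul_of_nonneg_left hkhalf (by positivity)
      _ = s ^ 2 / 16 := by ring
  -- termwise inequality
  have hterm : ∀ i, (y3 i - y1 i) ^ 2 ≤ 2 * y1 i ^ 2 + 2 * y3 i ^ 2 - 4 * y2 i ^ 2 + τ := by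
    intro i
    have h3 := h2 i
    have h4 := hE i
    have h5 := abs_le.mp (hEs i)
    have h6 : (y1 i + y3 i) = 2 * y2 i + E i := by linarith
    have h7 : (y3 i - y1 i) ^ 2 = 2 * y1 i ^ 2 + 2 * y3 i ^ 2 - (y1 i + y3 i) ^ 2 := by ring
    rw [h7, h6]
    nlinarith [sq_nonneg (E i)]
  have hsum : ∑ i, (y3 i - y1 i) ^ 2 ≤
      2 * ∑ i, y1 i ^ 2 + 2 * ∑ i, y3 i ^ 2 - 4 * ∑ i, y2 i ^ 2 + k * τ := by
    calc ∑ i, (y3 i - y1 i) ^ 2 ≤
        ∑ i, (2 * y1 i ^ 2 + 2 * y3 i ^ 2 - 4 * y2 i ^ 2 + τ) :=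
          Finset.sum_le_sum (fun i _ => hterm i)
      _ = _ := by
        rw [Finset.sum_add_distrib, Finset.sum_sub_distrib, Finset.sum_add_distrib,
          ← Finset.mul_sum, ← Finset.mul_sum, ← Finset.mul_sum, Finset.sum_const,
          Finset.card_univ, Fintype.card_fin, nsmul_eq_mul]
  have hone : (y3 i0 - y1 i0) ^ 2 ≤ ∑ i, (y3 i - y1 i) ^ 2 :=
    Finset.single_le_sum (f := fun i => (y3 i - y1 i) ^ 2) (fun i _ => sq_nonneg _)
      (Finset.mem_univ i0)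
  have hlow : (s - τ) ^ 2 ≤ (y3 i0 - y1 i0) ^ 2 := by
    rw [← sq_abs (y3 i0 - y1 i0)]
    apply pow_le_pow_left₀ _ hi
    nlinarith
  rw [hs2] at hr1 hr3
  have h8 : (s - τ) ^ 2 ≥ s ^ 2 - 2 * s * τ := by nlinarith
  have h9 : s * τ ≤ s ^ 2 / 16 := by nlinarith
  nlinarith

open Classical in
/-- One range of differences, blocks number one, two and three. -/
theorem color4 (D : Set ℕ) (n e k H K : ℕ) (hn : 1 ≤ n) (hk : 1 ≤ k) (hH : 1 ≤ H)
    (hHc : ∀ d ∈ D, d ≤ n → ((Finset.Ico (d / 2 ^ (e + 1) + 1) d).filter (· ∈ D)).card ≤ H)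
    (hq : 4 * H * 64 ^ k ≤ 2 ^ ((e + 1) * k)) (hK : 2 * e + 3 + k ≤ K) :
    ∃ f : ℕ → ℕ, (∀ a, f a < 2 ^ (2 * e + 3 * k)) ∧ ∀ d ∈ D, 2 ^ K * d ≤ n →
      n ≤ 2 ^ (2 * K - (2 * e + 3 + k)) * d → ∀ w b a1 a2 a3 : ℕ, w * n < d ^ 2 →
      b + d ≤ a1 → a1 ≤ b + d + w → b + 2 * d ≤ a2 → a2 ≤ b + 2 * d + w →
      b + 3 * d ≤ a3 → a3 ≤ b + 3 * d + w → ¬ (f a1 = f a2 ∧ f a1 = f a3) := by
  obtain ⟨K', hK'⟩ : ∃ K', K' = 2 * K - (2 * e + 3 + k) := ⟨_, rfl⟩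
  have hKK : K' + (2 * e + 3 + k) = 2 * K := by omega
  rw [← hK']
  have hn0 : (0 : ℝ) < n := by exact_mod_cast hn
  set D' := (Finset.range (n + 1)).filter (fun d => d ∈ D ∧ 2 ^ K * d ≤ n ∧ n ≤ 2 ^ K' * d)
    with hD'
  set lam : ℝ := 2 ^ K' / n with hlam
  have hlamp : 0 ≤ lam := by positivity
  obtain ⟨θ, hθ1, hθ2⟩ := peresSchlag D' lam e k H hH
    (by
      intro d hd
      rw [hD', Finset.mem_filter] at hd
      rw [hlam, div_mul_eq_mul_div, le_div_iff₀ hn0, one_mul]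
      exact_mod_cast hd.2.2.2)
    (by
      intro d hd
      rw [hD', Finset.mem_filter, Finset.mem_range] at hd
      refine le_trans (Finset.card_le_card ?_) (hHc d hd.2.1 (by omega))
      intro x hx
      rw [Finset.mem_filter] at hx ⊢
      refine ⟨hx.1, ?_⟩
      have := hx.2
      rw [hD', Finset.mem_filter] at this
      exact this.2.1) hq
  -- the points on the torus
  let fr : ℕ → Fin k → ℝ := fun a i => Int.fract ((a : ℝ) * (lam / 2 * θ i))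
  have hfr0 : ∀ a i, 0 ≤ fr a i := fun a i => Int.fract_nonneg _
  have hfr1 : ∀ a i, fr a i < 1 := fun a i => Int.fract_lt_one _
  have hq4 : ∀ a i, ⌊4 * fr a i⌋₊ < 4 := by
    intro a i
    rw [Nat.floor_lt (by have := hfr0 a i; positivity)]
    have := hfr1 a i
    push_cast
    linarith
  let y : ℕ → Fin k → ℝ := fun a i => fr a i - ⌊4 * fr a i⌋₊ / 4
  have hy : ∀ a i, 0 ≤ y a i ∧ y a i < 1 / 4 := by
    intro a i
    have f1 := Nat.floor_le (a := 4 * fr a i) (by have := hfr0 a i; positivity)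
    have f2 := Nat.lt_floor_add_one (4 * fr a i)
    constructor
    · show 0 ≤ fr a i - ⌊4 * fr a i⌋₊ / 4
      linarith
    · show fr a i - ⌊4 * fr a i⌋₊ / 4 < 1 / 4
      linarith
  have hr : ∀ a, ⌊(∑ i, y a i ^ 2) * (16 * 4 ^ e)⌋₊ < k * 4 ^ e := by
    intro a
    have hnn : 0 ≤ ∑ i, y a i ^ 2 := Finset.sum_nonneg (fun i _ => sq_nonneg _)
    rw [Nat.floor_lt (by positivity)]
    push_cast
    have h1 : ∑ i, y a i ^ 2 < ∑ _i : Fin k, (1 / 16 : ℝ) := by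
      apply Finset.sum_lt_sum_of_nonempty
      · exact ⟨⟨0, by omega⟩, Finset.mem_univ _⟩
      · intro i _
        have := hy a i
        nlinarith
    rw [Finset.sum_const, Finset.card_univ, Fintype.card_fin, nsmul_eq_mul] at h1
    have h4e : (0 : ℝ) < 4 ^ e := by positivity
    nlinarith
  -- the classes
  let F : ℕ → (Fin k → Fin 4) × Fin (k * 4 ^ e) := fun a =>
    (fun i => ⟨⌊4 * fr a i⌋₊, hq4 a i⟩, ⟨⌊(∑ i, y a i ^ 2) * (16 * 4 ^ e)⌋₊, hr a⟩)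
  refine ⟨fun a => (Fintype.equivFin _ (F a)).val, fun a => ?_, ?_⟩
  · refine lt_of_lt_of_le (Fintype.equivFin _ (F a)).isLt ?_
    rw [Fintype.card_prod, Fintype.card_pi]
    simp only [Fintype.card_fin, Finset.prod_const, Finset.card_univ]
    have h1 : k ≤ 2 ^ k := (Nat.lt_two_pow_self (n := k)).le
    calc 4 ^ k * (k * 4 ^ e) ≤ 4 ^ k * (2 ^ k * 4 ^ e) := by gcongr
      _ = 2 ^ (2 * e + 3 * k) := by
        rw [show (4 : ℕ) = 2 ^ 2 by norm_num, ← pow_mul, ← pow_mul, ← pow_add, ← pow_add]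
        congr 1; ring
  · intro d hdD hd1 hd2 w b a1 a2 a3 hw h1 h2 h3 h4 h5 h6
    rintro ⟨heq2, heq3⟩
    have heq2' : F a1 = F a2 := by
      have := Fin.ext heq2
      exact (Fintype.equivFin _).injective this
    have heq3' : F a1 = F a3 := by
      have := Fin.ext heq3
      exact (Fintype.equivFin _).injective this
    have hdmem : d ∈ D' := by
      rw [hD', Finset.mem_filter, Finset.mem_range]
      refine ⟨?_, hdD, hd1, hd2⟩
      have : d ≤ 2 ^ K * d := Nat.le_mul_of_pos_left _ (by positivity)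
      omega
    obtain ⟨i0, hi⟩ := hθ2 d hdmem
    have hw' : (w : ℝ) * lam ≤ 1 / 2 ^ (2 * e + 3 + k) :=
      tol n d w K K' (2 * e + 3 + k) hn hw hd1 hKK
    set τ : ℝ := 1 / 2 ^ (2 * e + 3 + k) with hτ
    have c1 : (b : ℝ) + d ≤ a1 := by exact_mod_cast h1
    have c2 : (a1 : ℝ) ≤ b + d + w := by exact_mod_cast h2
    have c3 : (b : ℝ) + 2 * d ≤ a2 := by exact_mod_cast h3
    have c4 : (a2 : ℝ) ≤ b + 2 * d + w := by exact_mod_cast h4
    have c5 : (b : ℝ) + 3 * d ≤ a3 := by exact_mod_cast h5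
    have c6 : (a3 : ℝ) ≤ b + 3 * d + w := by exact_mod_cast h6
    have hq2 : ∀ i, ⌊4 * fr a1 i⌋₊ = ⌊4 * fr a2 i⌋₊ := fun i => by
      have := congrFun (congrArg Prod.fst heq2') i
      exact congrArg Fin.val this
    have hq3 : ∀ i, ⌊4 * fr a1 i⌋₊ = ⌊4 * fr a3 i⌋₊ := fun i => by
      have := congrFun (congrArg Prod.fst heq3') i
      exact congrArg Fin.val this
    have hr2 : ⌊(∑ i, y a1 i ^ 2) * (16 * 4 ^ e)⌋₊ = ⌊(∑ i, y a2 i ^ 2) * (16 * 4 ^ e)⌋₊ :=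
      congrArg Fin.val (congrArg Prod.snd heq2')
    have hr3 : ⌊(∑ i, y a1 i ^ 2) * (16 * 4 ^ e)⌋₊ = ⌊(∑ i, y a3 i ^ 2) * (16 * 4 ^ e)⌋₊ :=
      congrArg Fin.val (congrArg Prod.snd heq3')
    have hP : (0 : ℝ) < 16 * 4 ^ e := by positivity
    have hN : ∀ a, 0 ≤ ∑ i, y a i ^ 2 := fun a => Finset.sum_nonneg (fun i _ => sq_nonneg _)
    have hc12 : |∑ i, y a2 i ^ 2 - ∑ i, y a1 i ^ 2| < 1 / (16 * 4 ^ e) :=
      close_of_floor _ _ _ hP (hN _) (hN _) (by rw [mul_comm, hr2, mul_comm])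
    have hc32 : |∑ i, y a2 i ^ 2 - ∑ i, y a3 i ^ 2| < 1 / (16 * 4 ^ e) :=
      close_of_floor _ _ _ hP (hN _) (hN _) (by
        rw [mul_comm, ← hr3, hr2, mul_comm])
    have hθa : ∀ i, 0 ≤ θ i ∧ θ i < 1 := hθ1
    have hτhalf : τ < 1 / 2 := by
      rw [hτ, div_lt_div_iff₀ (by positivity) (by norm_num), one_mul, one_mul]
      calc (2 : ℝ) < 2 ^ 3 := by norm_num
        _ ≤ 2 ^ (2 * e + 3 + k) := pow_le_pow_right₀ (by norm_num) (by omega)
    have hlt : ∀ i, |lam / 2 * θ i| ≤ lam / 2 := by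
      intro i
      have h7 := hθa i
      rw [abs_of_nonneg (mul_nonneg (by positivity) h7.1)]
      nlinarith
    have hEs : ∀ i, |((a1 : ℝ) + a3 - 2 * a2) * (lam / 2 * θ i)| ≤ τ := by
      intro i
      rw [abs_mul]
      have e1 : |(a1 : ℝ) + a3 - 2 * a2| ≤ 2 * w := by
        rw [abs_le]; constructor <;> linarith
      calc _ ≤ (2 * (w : ℝ)) * (lam / 2) := mul_le_mul e1 (hlt i) (abs_nonneg _) (by positivity)
        _ = (w : ℝ) * lam := by ring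
        _ ≤ _ := hw'
    have hE : ∀ i, y a1 i + y a3 i - 2 * y a2 i =
        ((a1 : ℝ) + a3 - 2 * a2) * (lam / 2 * θ i) := by
      intro i
      have q2 := hq2 i
      have q3 := hq3 i
      have e1 : y a1 i + y a3 i - 2 * y a2 i = fr a1 i + fr a3 i - 2 * fr a2 i := by
        show (fr a1 i - ⌊4 * fr a1 i⌋₊ / 4) + (fr a3 i - ⌊4 * fr a3 i⌋₊ / 4) -
          2 * (fr a2 i - ⌊4 * fr a2 i⌋₊ / 4) = _
        rw [← q2, ← q3]
        ring
      have g1 := Int.floor_add_fract ((a1 : ℝ) * (lam / 2 * θ i))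
      have g2 := Int.floor_add_fract ((a2 : ℝ) * (lam / 2 * θ i))
      have g3 := Int.floor_add_fract ((a3 : ℝ) * (lam / 2 * θ i))
      have e2 : ((a1 : ℝ) + a3 - 2 * a2) * (lam / 2 * θ i) -
          (y a1 i + y a3 i - 2 * y a2 i) =
          ((⌊(a1 : ℝ) * (lam / 2 * θ i)⌋ + ⌊(a3 : ℝ) * (lam / 2 * θ i)⌋ -
            2 * ⌊(a2 : ℝ) * (lam / 2 * θ i)⌋ : ℤ) : ℝ) := by
        rw [e1]
        show ((a1 : ℝ) + a3 - 2 * a2) * (lam / 2 * θ i) -
          (Int.fract ((a1 : ℝ) * (lam / 2 * θ i)) + Int.fract ((a3 : ℝ) * (lam / 2 * θ i)) -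
            2 * Int.fract ((a2 : ℝ) * (lam / 2 * θ i))) = _
        push_cast
        linear_combination -g1 - g3 + 2 * g2
      have e3 := abs_le.mp (hEs i)
      have y1 := hy a1 i
      have y2 := hy a2 i
      have y3 := hy a3 i
      have e4 : (⌊(a1 : ℝ) * (lam / 2 * θ i)⌋ + ⌊(a3 : ℝ) * (lam / 2 * θ i)⌋ -
            2 * ⌊(a2 : ℝ) * (lam / 2 * θ i)⌋ : ℤ) = 0 := by
        have u1 : ((⌊(a1 : ℝ) * (lam / 2 * θ i)⌋ + ⌊(a3 : ℝ) * (lam / 2 * θ i)⌋ -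
            2 * ⌊(a2 : ℝ) * (lam / 2 * θ i)⌋ : ℤ) : ℝ) < 1 := by
          rw [← e2]; linarith
        have u2 : (-1 : ℝ) < ((⌊(a1 : ℝ) * (lam / 2 * θ i)⌋ + ⌊(a3 : ℝ) * (lam / 2 * θ i)⌋ -
            2 * ⌊(a2 : ℝ) * (lam / 2 * θ i)⌋ : ℤ) : ℝ) := by
          rw [← e2]; linarith
        have u1' : (⌊(a1 : ℝ) * (lam / 2 * θ i)⌋ + ⌊(a3 : ℝ) * (lam / 2 * θ i)⌋ -
            2 * ⌊(a2 : ℝ) * (lam / 2 * θ i)⌋ : ℤ) < 1 := by exact_mod_cast u1
        have u2' : -1 < (⌊(a1 : ℝ) * (lam / 2 * θ i)⌋ + ⌊(a3 : ℝ) * (lam / 2 * θ i)⌋ -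
            2 * ⌊(a2 : ℝ) * (lam / 2 * θ i)⌋ : ℤ) := by exact_mod_cast u2
        omega
      rw [e4] at e2
      push_cast at e2
      linarith
    refine shell k e hk (y a1) (y a2) (y a3) _ i0 (hy a2) hE hEs ?_ ?_ ?_
    · have := abs_lt.mp hc12
      linarith
    · have := abs_lt.mp hc32
      linarith
    · have hz := hi (⌊(a3 : ℝ) * (lam / 2 * θ i0)⌋ - ⌊(a1 : ℝ) * (lam / 2 * θ i0)⌋)
      have q3 := hq3 i0
      have e1 : y a3 i0 - y a1 i0 = fr a3 i0 - fr a1 i0 := by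
        show (fr a3 i0 - ⌊4 * fr a3 i0⌋₊ / 4) - (fr a1 i0 - ⌊4 * fr a1 i0⌋₊ / 4) = _
        rw [← q3]
        ring
      have hkey : lam * d * θ i0 -
          ((⌊(a3 : ℝ) * (lam / 2 * θ i0)⌋ - ⌊(a1 : ℝ) * (lam / 2 * θ i0)⌋ : ℤ) : ℝ) =
          (fr a3 i0 - fr a1 i0) - ((a3 : ℝ) - a1 - 2 * d) * (lam / 2 * θ i0) := by
        have g1 := Int.floor_add_fract ((a1 : ℝ) * (lam / 2 * θ i0))
        have g3 := Int.floor_add_fract ((a3 : ℝ) * (lam / 2 * θ i0))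
        show lam * d * θ i0 -
          ((⌊(a3 : ℝ) * (lam / 2 * θ i0)⌋ - ⌊(a1 : ℝ) * (lam / 2 * θ i0)⌋ : ℤ) : ℝ) =
          (Int.fract ((a3 : ℝ) * (lam / 2 * θ i0)) - Int.fract ((a1 : ℝ) * (lam / 2 * θ i0))) -
            ((a3 : ℝ) - a1 - 2 * d) * (lam / 2 * θ i0)
        push_cast
        linear_combination g1 - g3
      rw [hkey] at hz
      have hu : |((a3 : ℝ) - a1 - 2 * d) * (lam / 2 * θ i0)| ≤ τ := by
        rw [abs_mul]
        have e1 : |(a3 : ℝ) - a1 - 2 * d| ≤ w := by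
          rw [abs_le]; constructor <;> linarith
        calc _ ≤ (w : ℝ) * (lam / 2) := mul_le_mul e1 (hlt i0) (abs_nonneg _) (by positivity)
          _ ≤ (w : ℝ) * lam := by
            apply mul_le_mul_of_nonneg_left _ (by positivity)
            linarith
          _ ≤ _ := hw'
      have h9 := abs_sub (fr a3 i0 - fr a1 i0) (((a3 : ℝ) - a1 - 2 * d) * (lam / 2 * θ i0))
      rw [e1]
      linarith

end Pool.Agent.H562.NP
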