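import Pool.Agent.H562.NP.Color

/-! From the colourings of the ranges of differences to dense sets. -/

set_option autoImplicit false

open Finset

namespace Pool.Agent.H562.NP

/-- `A` nearly contains a `(t, d, w)`-progression: some `b` makes all the blocks
`[b + i d, b + i d + w]`, `1 ≤ i ≤ t - 1`, meet `A`. -/
def Near (A : Finset ℕ) (t d w : ℕ) : Prop :=
  ∃ b : ℕ, ∀ i ∈ Finset.Icc 1 (t - 1), ∃ a ∈ A, b + i * d ≤ a ∧ a ≤ b + i * d + w

/-- `A ⊆ [1, n]` nearly contains no `(t, d, w)`-progression with `d ∈ D` and `w n < d ^ 2`. -/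
def Avoids (D : Set ℕ) (t n : ℕ) (A : Finset ℕ) : Prop :=
  A ⊆ Finset.Icc 1 n ∧ ∀ d ∈ D, ∀ w : ℕ, w * n < d ^ 2 → ¬ Near A t d w

/-- Fewer blocks are easier to meet. -/
theorem Near.mono {A : Finset ℕ} {s t d w : ℕ} (hst : s ≤ t) (h : Near A t d w) :
    Near A s d w := by
  obtain ⟨b, hb⟩ := h
  exact ⟨b, fun i hi => hb i (by rw [Finset.mem_Icc] at hi ⊢; omega)⟩

open Classical in
theorem iterate (D : Set ℕ) (t n c q S : ℕ) (ht : 3 ≤ t) (hS1 : 1 ≤ S)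
    (hcol : ∀ K, c < K → ∃ f : ℕ → ℕ, (∀ a, f a < 2 ^ q) ∧ ∀ d ∈ D, 2 ^ K * d ≤ n →
      n ≤ 2 ^ (2 * K - c) * d → ∀ w, w * n < d ^ 2 → ∀ b, ∀ g : ℕ → ℕ,
      (∀ i ∈ Finset.Icc 1 (t - 1), b + i * d ≤ g i ∧ g i ≤ b + i * d + w) →
      ¬ (∀ i ∈ Finset.Icc 1 (t - 1), f (g i) = f (g 1)))
    (hS : n ≤ 2 ^ (c + 2 ^ S)) :
    ∃ A : Finset ℕ, A ⊆ Finset.Icc 1 (n / 2 ^ (c + 1)) ∧
      (∀ d ∈ D, ∀ w, w * n < d ^ 2 → ¬ Near A t d w) ∧
      n / 2 ^ (c + 1) ≤ A.card * 2 ^ (q * S) := by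
  have hcol' : ∀ s : ℕ, ∃ f : ℕ → ℕ, (∀ a, f a < 2 ^ q) ∧ ∀ d ∈ D, 2 ^ (c + 2 ^ s) * d ≤ n →
      n ≤ 2 ^ (c + 2 ^ (s + 1)) * d → ∀ w, w * n < d ^ 2 → ∀ b, ∀ g : ℕ → ℕ,
      (∀ i ∈ Finset.Icc 1 (t - 1), b + i * d ≤ g i ∧ g i ≤ b + i * d + w) →
      ¬ (∀ i ∈ Finset.Icc 1 (t - 1), f (g i) = f (g 1)) := by
    intro s
    obtain ⟨f, h1, h2⟩ := hcol (c + 2 ^ s) (by have : 0 < 2 ^ s := by positivity
                                               omega)
    refine ⟨f, h1, fun d hd h3 h4 => h2 d hd h3 ?_⟩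
    have : 2 * (c + 2 ^ s) - c = c + 2 ^ (s + 1) := by
      rw [pow_succ]; omega
    rw [this]
    exact h4
  choose f hf1 hf2 using hcol'
  let F : ℕ → (Fin S → Fin (2 ^ q)) := fun a s => ⟨f s.val a, hf1 _ _⟩
  obtain ⟨L, hL⟩ : ∃ L, L = n / 2 ^ (c + 1) := ⟨_, rfl⟩
  obtain ⟨y, -, hy⟩ := Finset.exists_le_card_fiber_of_nsmul_le_card_of_maps_to
    (s := Finset.Icc 1 L) (t := (Finset.univ : Finset (Fin S → Fin (2 ^ q)))) (f := F)
    (b := (L : ℝ) / 2 ^ (q * S)) (fun a _ => Finset.mem_univ _)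
    ⟨F 0, Finset.mem_univ _⟩ (by
      rw [Finset.card_univ, Fintype.card_fun, Fintype.card_fin, Fintype.card_fin, nsmul_eq_mul,
        Nat.card_Icc, ← pow_mul]
      push_cast
      rw [mul_div_cancel₀ _ (by positivity)])
  refine ⟨(Finset.Icc 1 L).filter (fun a => F a = y), ?_, ?_, ?_⟩
  · rw [← hL]
    exact Finset.filter_subset _ _
  · rintro d hd w hw ⟨b, hb⟩
    have hd1 : 1 ≤ d := by
      rcases Nat.eq_zero_or_pos d with h0 | h0
      · rw [h0] at hw; norm_num at hw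
      · exact h0
    have h2m : 2 ∈ Finset.Icc 1 (t - 1) := by rw [Finset.mem_Icc]; omega
    have h1m : 1 ∈ Finset.Icc 1 (t - 1) := by rw [Finset.mem_Icc]; omega
    rcases Nat.lt_or_ge n (2 ^ (c + 1) * d) with hlt | hge
    · obtain ⟨a, ha, ha1, -⟩ := hb 2 h2m
      rw [Finset.mem_filter, Finset.mem_Icc] at ha
      have h3 : L * 2 ^ (c + 1) ≤ n := by rw [hL]; exact Nat.div_mul_le_self _ _
      have h4 : d ≤ L := by omega
      have h5 : 2 ^ (c + 1) * d ≤ L * 2 ^ (c + 1) := by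
        rw [mul_comm]; exact Nat.mul_le_mul_right _ h4
      omega
    · choose g hg1 hg2 using hb
      -- find the range of `d`
      have hex : ∃ s, n ≤ 2 ^ (c + 2 ^ (s + 1)) * d := by
        refine ⟨S - 1, ?_⟩
        rw [Nat.sub_add_cancel hS1]
        exact hS.trans (Nat.le_mul_of_pos_right _ hd1)
      set s := Nat.find hex with hs
      have hsS : s ≤ S - 1 := by
        apply Nat.find_min'
        rw [Nat.sub_add_cancel hS1]
        exact hS.trans (Nat.le_mul_of_pos_right _ hd1)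
      have hs1 : n ≤ 2 ^ (c + 2 ^ (s + 1)) * d := Nat.find_spec hex
      have hs0 : 2 ^ (c + 2 ^ s) * d ≤ n := by
        rcases Nat.eq_zero_or_pos s with h0 | h0
        · rw [h0]
          simpa using hge
        · have h3 := Nat.find_min hex (m := s - 1) (by omega)
          rw [Nat.sub_add_cancel h0] at h3
          omega
      let g' : ℕ → ℕ := fun i => if hi : i ∈ Finset.Icc 1 (t - 1) then g i hi else 0
      have hg' : ∀ i (hi : i ∈ Finset.Icc 1 (t - 1)), g' i = g i hi := fun i hi => dif_pos hi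
      refine hf2 s d hd hs0 hs1 w hw b g' (fun i hi => ?_) (fun i hi => ?_)
      · rw [hg' i hi]; exact hg2 i hi
      · rw [hg' i hi, hg' 1 h1m]
        have e1 := (Finset.mem_filter.mp (hg1 i hi)).2
        have e2 := (Finset.mem_filter.mp (hg1 1 h1m)).2
        have e3 := congrFun (e1.trans e2.symm) ⟨s, by omega⟩
        exact congrArg Fin.val e3
  · rw [← hL]
    rw [div_le_iff₀ (by positivity)] at hy
    exact_mod_cast hy

open Classical in
theorem octaves (D : Set ℕ) (M n : ℕ)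
    (hM : ∀ x, 1 ≤ x → x ≤ n → ((Finset.Ico x (2 * x)).filter (· ∈ D)).card ≤ M) (j d : ℕ)
    (hd1 : 1 ≤ d) (hd : d ≤ n) :
    ((Finset.Ico (d / 2 ^ j + 1) (d + 1)).filter (· ∈ D)).card ≤ j * M := by
  induction j with
  | zero => simp
  | succ j ih =>
    have h1 : d / 2 ^ (j + 1) = d / 2 ^ j / 2 := by rw [pow_succ, Nat.div_div_eq_div_mul]
    have h2 : d / 2 ^ (j + 1) + 1 ≤ d := by
      have h3 : d / 2 ^ (j + 1) ≤ d / 2 := by
        apply Nat.div_le_div_left _ (by norm_num)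
        calc 2 = 2 ^ 1 := by norm_num
          _ ≤ 2 ^ (j + 1) := Nat.pow_le_pow_right (by norm_num) (by omega)
      omega
    have h4 := hM (d / 2 ^ (j + 1) + 1) (Nat.le_add_left 1 _) (h2.trans hd)
    have hsub : (Finset.Ico (d / 2 ^ (j + 1) + 1) (d + 1)).filter (· ∈ D) ⊆
        ((Finset.Ico (d / 2 ^ (j + 1) + 1) (2 * (d / 2 ^ (j + 1) + 1))).filter (· ∈ D)) ∪
        ((Finset.Ico (d / 2 ^ j + 1) (d + 1)).filter (· ∈ D)) := by
      intro x hx
      rw [Finset.mem_filter, Finset.mem_Ico] at hx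
      rw [Finset.mem_union, Finset.mem_filter, Finset.mem_filter, Finset.mem_Ico,
        Finset.mem_Ico]
      rcases Nat.lt_or_ge x (2 * (d / 2 ^ (j + 1) + 1)) with h5 | h5
      · exact Or.inl ⟨⟨hx.1.1, h5⟩, hx.2⟩
      · refine Or.inr ⟨⟨?_, hx.1.2⟩, hx.2⟩
        omega
    calc _ ≤ _ := Finset.card_le_card hsub
      _ ≤ _ := Finset.card_union_le _ _
      _ ≤ M + j * M := Nat.add_le_add h4 ih
      _ = (j + 1) * M := by ring

/-- The finite form for three blocks (two of which count). -/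
theorem engine3 (D : Set ℕ) (t n e M S : ℕ) (ht : 3 ≤ t) (hn : 1 ≤ n) (hM1 : 1 ≤ M)
    (hS1 : 1 ≤ S)
    (hM : ∀ x, 1 ≤ x → x ≤ n → (D ∩ Set.Ico x (2 * x)).ncard ≤ M)
    (hq : 256 * ((e + 1) * M) ≤ 2 ^ (e + 1)) (hS : n ≤ 2 ^ (e + 1 + 2 ^ S))
    (hne : 2 ^ (e + 2) ≤ n) :
    ∃ A : Finset ℕ, Avoids D t n A ∧ n ≤ A.card * 2 ^ ((e + 1) * S + e + 3) := by
  classical
  have hM' : ∀ x, 1 ≤ x → x ≤ n → ((Finset.Ico x (2 * x)).filter (· ∈ D)).card ≤ M := by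
    intro x h1 h2
    refine le_trans (le_of_eq ?_) (hM x h1 h2)
    rw [← Set.ncard_coe_finset]
    congr 1
    ext y
    simp only [Finset.coe_filter, Finset.mem_Ico, Set.mem_ofPred_eq, Set.mem_inter_iff,
      Set.mem_Ico]
    tauto
  have hH : ∀ d ∈ D, d ≤ n →
      ((Finset.Ico (d / 2 ^ (e + 1) + 1) d).filter (· ∈ D)).card ≤ (e + 1) * M := by
    intro d _ hdn
    rcases Nat.eq_zero_or_pos d with h0 | h0
    · rw [h0]; simp
    · refine le_trans (Finset.card_le_card ?_) (octaves D M n hM' (e + 1) d h0 hdn)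
      apply Finset.filter_subset_filter
      intro x hx
      rw [Finset.mem_Ico] at hx ⊢
      omega
  obtain ⟨A, hA1, hA2, hA3⟩ := iterate D t n (e + 1) (e + 1) S ht hS1 (fun K hK => by
    obtain ⟨f, h1, h2⟩ := color3 D n e ((e + 1) * M) K hn (by nlinarith) hH hq (by omega)
    refine ⟨f, h1, fun d hd h3 h4 w hw b g hg hall => ?_⟩
    have g1 := hg 1 (by rw [Finset.mem_Icc]; omega)
    have g2 := hg 2 (by rw [Finset.mem_Icc]; omega)
    have e2 := hall 2 (by rw [Finset.mem_Icc]; omega)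
    exact h2 d hd h3 h4 w b (g 1) (g 2) hw (by omega) (by omega) g2.1 g2.2 e2.symm) hS
  refine ⟨A, ⟨hA1.trans ?_, hA2⟩, ?_⟩
  · apply Finset.Icc_subset_Icc_right
    exact Nat.div_le_self _ _
  · have h1 : 1 ≤ n / 2 ^ (e + 2) := by
      rw [Nat.le_div_iff_mul_le (by positivity)]
      omega
    have h2 : n < 2 ^ (e + 2) * (n / 2 ^ (e + 2) + 1) := by
      exact Nat.lt_mul_div_succ n (by positivity)
    have h3 : e + 1 + 1 = e + 2 := by ring
    rw [h3] at hA3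
    calc n ≤ 2 ^ (e + 2) * (n / 2 ^ (e + 2) + 1) := h2.le
      _ ≤ 2 ^ (e + 2) * (2 * (n / 2 ^ (e + 2))) := Nat.mul_le_mul_left _ (by omega)
      _ ≤ 2 ^ (e + 2) * (2 * (A.card * 2 ^ ((e + 1) * S))) := by gcongr
      _ = A.card * 2 ^ ((e + 1) * S + e + 3) := by ring

/-- The finite form for four blocks (three of which count). -/
theorem engine4 (D : Set ℕ) (t n e k M S : ℕ) (ht : 4 ≤ t) (hn : 1 ≤ n) (hk : 1 ≤ k)
    (hM1 : 1 ≤ M) (hS1 : 1 ≤ S)
    (hM : ∀ x, 1 ≤ x → x ≤ n → (D ∩ Set.Ico x (2 * x)).ncard ≤ M)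
    (hq : 4 * ((e + 1) * M) * 64 ^ k ≤ 2 ^ ((e + 1) * k))
    (hS : n ≤ 2 ^ (2 * e + 3 + k + 2 ^ S))
    (hne : 2 ^ (2 * e + 4 + k) ≤ n) :
    ∃ A : Finset ℕ, Avoids D t n A ∧
      n ≤ A.card * 2 ^ ((2 * e + 3 * k) * S + 2 * e + k + 5) := by
  classical
  have hM' : ∀ x, 1 ≤ x → x ≤ n → ((Finset.Ico x (2 * x)).filter (· ∈ D)).card ≤ M := by
    intro x h1 h2
    refine le_trans (le_of_eq ?_) (hM x h1 h2)
    rw [← Set.ncard_coe_finset]
    congr 1
    ext y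
    simp only [Finset.coe_filter, Finset.mem_Ico, Set.mem_ofPred_eq, Set.mem_inter_iff,
      Set.mem_Ico]
    tauto
  have hH : ∀ d ∈ D, d ≤ n →
      ((Finset.Ico (d / 2 ^ (e + 1) + 1) d).filter (· ∈ D)).card ≤ (e + 1) * M := by
    intro d _ hdn
    rcases Nat.eq_zero_or_pos d with h0 | h0
    · rw [h0]; simp
    · refine le_trans (Finset.card_le_card ?_) (octaves D M n hM' (e + 1) d h0 hdn)
      apply Finset.filter_subset_filter
      intro x hx
      rw [Finset.mem_Ico] at hx ⊢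
      omega
  obtain ⟨A, hA1, hA2, hA3⟩ := iterate D t n (2 * e + 3 + k) (2 * e + 3 * k) S (by omega) hS1
    (fun K hK => by
    obtain ⟨f, h1, h2⟩ := color4 D n e k ((e + 1) * M) K hn hk (by nlinarith) hH hq
      (by omega)
    refine ⟨f, h1, fun d hd h3 h4 w hw b g hg hall => ?_⟩
    have g1 := hg 1 (by rw [Finset.mem_Icc]; omega)
    have g2 := hg 2 (by rw [Finset.mem_Icc]; omega)
    have g3 := hg 3 (by rw [Finset.mem_Icc]; omega)
    have e2 := hall 2 (by rw [Finset.mem_Icc]; omega)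
    have e3 := hall 3 (by rw [Finset.mem_Icc]; omega)
    exact h2 d hd h3 h4 w b (g 1) (g 2) (g 3) hw (by omega) (by omega) g2.1 g2.2 g3.1 g3.2
      ⟨e2.symm, e3.symm⟩) hS
  refine ⟨A, ⟨hA1.trans ?_, hA2⟩, ?_⟩
  · apply Finset.Icc_subset_Icc_right
    exact Nat.div_le_self _ _
  · have h0 : 2 * e + 3 + k + 1 = 2 * e + 4 + k := by ring
    rw [h0] at hA3
    have h1 : 1 ≤ n / 2 ^ (2 * e + 4 + k) := by
      rw [Nat.le_div_iff_mul_le (by positivity)]
      omega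
    have h2 : n < 2 ^ (2 * e + 4 + k) * (n / 2 ^ (2 * e + 4 + k) + 1) := by
      exact Nat.lt_mul_div_succ n (by positivity)
    calc n ≤ 2 ^ (2 * e + 4 + k) * (n / 2 ^ (2 * e + 4 + k) + 1) := h2.le
      _ ≤ 2 ^ (2 * e + 4 + k) * (2 * (n / 2 ^ (2 * e + 4 + k))) :=
        Nat.mul_le_mul_left _ (by omega)
      _ ≤ 2 ^ (2 * e + 4 + k) * (2 * (A.card * 2 ^ ((2 * e + 3 * k) * S))) := by gcongr
      _ = A.card * 2 ^ ((2 * e + 3 * k) * S + 2 * e + k + 5) := by ring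

end Pool.Agent.H562.NP
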