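import Mathlib

/-! A finite-dimensional, scaled version of the theorem of Peres and Schlag: if a set of
differences `d` has few elements at every scale then some `θ` in `[0, 1) ^ k` keeps all the
`lam d θ` away from the lattice points. -/

set_option autoImplicit false

open Finset

namespace Pool.Agent.H562.NP

/-- `c α` is at distance at most `ρ` from an integer. -/
def bad1 (α ρ : ℝ) (c : ℕ) : Prop := |(c : ℝ) * α - round ((c : ℝ) * α)| ≤ ρ

open Classical in
theorem bad1_count (e : ℕ) (α : ℝ) (h1 : 1 / 2 ^ (e + 1) ≤ α) (h2 : α < 1 / 2 ^ e) (a : ℕ) :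
    ((Finset.Ico a (a + 2 ^ (e + 1))).filter (fun c => bad1 α (2 / 2 ^ e) c)).card ≤ 64 := by
  set B := (Finset.Ico a (a + 2 ^ (e + 1))).filter (fun c => bad1 α (2 / 2 ^ e) c) with hB
  have hp : (0 : ℝ) < 2 ^ e := by positivity
  have hα : 0 < α := lt_of_lt_of_le (by positivity) h1
  have himg : B.image (fun c : ℕ => round ((c : ℝ) * α)) ⊆
      Finset.Icc (round ((a : ℝ) * α) - 1) (round ((a : ℝ) * α) + 3) := by
    intro z hz
    obtain ⟨c, hc, rfl⟩ := Finset.mem_image.mp hz
    rw [hB, Finset.mem_filter, Finset.mem_Ico] at hc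
    obtain ⟨⟨hc1, hc2⟩, -⟩ := hc
    have e1 := abs_le.mp (abs_sub_round ((c : ℝ) * α))
    have e2 := abs_le.mp (abs_sub_round ((a : ℝ) * α))
    have e3 : (a : ℝ) * α ≤ (c : ℝ) * α := by
      have : (a : ℝ) ≤ c := by exact_mod_cast hc1
      nlinarith
    have e4 : (c : ℝ) * α < (a : ℝ) * α + 2 := by
      have h5 : (c : ℝ) < a + 2 ^ (e + 1) := by exact_mod_cast hc2
      have h6 : (2 : ℝ) ^ (e + 1) * α < 2 := by
        rw [pow_succ]
        have := (lt_div_iff₀ hp).mp h2
        nlinarith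
      nlinarith
    rw [Finset.mem_Icc]
    constructor
    · have : ((round ((a : ℝ) * α) : ℤ) : ℝ) - 1 ≤ ((round ((c : ℝ) * α) : ℤ) : ℝ) := by linarith
      exact_mod_cast this
    · have : ((round ((c : ℝ) * α) : ℤ) : ℝ) ≤ ((round ((a : ℝ) * α) : ℤ) : ℝ) + 3 := by linarith
      exact_mod_cast this
  have hcard : (B.image (fun c : ℕ => round ((c : ℝ) * α))).card ≤ 5 := by
    refine le_trans (Finset.card_le_card himg) ?_
    rw [Int.card_Icc]
    omega
  have hfib : ∀ z ∈ B.image (fun c : ℕ => round ((c : ℝ) * α)),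
      (B.filter (fun c : ℕ => round ((c : ℝ) * α) = z)).card ≤ 9 := by
    intro z _
    by_cases hne : (B.filter (fun c : ℕ => round ((c : ℝ) * α) = z)).Nonempty
    · set c0 := (B.filter (fun c : ℕ => round ((c : ℝ) * α) = z)).min' hne with hc0
      have hc0m := Finset.min'_mem _ hne
      rw [← hc0, Finset.mem_filter, hB, Finset.mem_filter] at hc0m
      have hsub : B.filter (fun c : ℕ => round ((c : ℝ) * α) = z) ⊆ Finset.Icc c0 (c0 + 8) := by
        intro c hc
        have hle : c0 ≤ c := Finset.min'_le _ _ hc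
        rw [Finset.mem_filter, hB, Finset.mem_filter] at hc
        obtain ⟨⟨-, hb⟩, hz⟩ := hc
        obtain ⟨⟨-, hb0⟩, hz0⟩ := hc0m
        unfold bad1 at hb hb0
        rw [hz] at hb
        rw [hz0] at hb0
        have b1 := abs_le.mp hb
        have b0 := abs_le.mp hb0
        rw [Finset.mem_Icc]
        refine ⟨hle, ?_⟩
        have h5 : ((c : ℝ) - c0) * α ≤ 4 / 2 ^ e := by
          have : (4 : ℝ) / 2 ^ e = 2 / 2 ^ e + 2 / 2 ^ e := by ring
          linarith
        have h6 : ((c : ℝ) - c0) * (1 / 2 ^ (e + 1)) ≤ ((c : ℝ) - c0) * α := by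
          have : (0 : ℝ) ≤ (c : ℝ) - c0 := by
            have : (c0 : ℝ) ≤ c := by exact_mod_cast hle
            linarith
          exact mul_le_mul_of_nonneg_left h1 this
        have h7 : ((c : ℝ) - c0) * (1 / 2 ^ (e + 1)) ≤ 4 / 2 ^ e := h6.trans h5
        have h8 : ((c : ℝ) - c0) ≤ 8 := by
          rw [mul_one_div, div_le_div_iff₀ (by positivity) (by positivity), pow_succ] at h7
          nlinarith
        have h9 : (c : ℝ) ≤ ((c0 + 8 : ℕ) : ℝ) := by push_cast; linarith
        exact_mod_cast h9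
      refine le_trans (Finset.card_le_card hsub) ?_
      rw [Nat.card_Icc]
      omega
    · rw [Finset.not_nonempty_iff_eq_empty] at hne
      rw [hne]
      simp
  calc B.card ≤ 9 * (B.image (fun c : ℕ => round ((c : ℝ) * α))).card :=
        Finset.card_le_mul_card_image B 9 hfib
    _ ≤ 9 * 5 := Nat.mul_le_mul_left _ hcard
    _ ≤ 64 := by norm_num

open Classical in
theorem oneDim (R n0 e : ℕ) (hR : n0 + e + 1 ≤ R) (α : ℝ) (h1 : 1 / 2 ^ (e + 1) ≤ α)
    (h2 : α < 1 / 2 ^ e) (p : ℕ) :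
    ((Finset.range (2 ^ R)).filter (fun v => v / 2 ^ (R - n0) = p ∧
      bad1 α (2 / 2 ^ e) (v / 2 ^ (R - (n0 + e + 1))))).card * 2 ^ (e + 1) ≤
    64 * ((Finset.range (2 ^ R)).filter (fun v => v / 2 ^ (R - n0) = p)).card := by
  have hRn : R - n0 = (R - (n0 + e + 1)) + (e + 1) := by omega
  by_cases hp : p < 2 ^ n0
  · have hlow : 2 ^ (R - n0) ≤
        ((Finset.range (2 ^ R)).filter (fun v => v / 2 ^ (R - n0) = p)).card := by
      have hsub : Finset.Ico (p * 2 ^ (R - n0)) ((p + 1) * 2 ^ (R - n0)) ⊆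
          (Finset.range (2 ^ R)).filter (fun v => v / 2 ^ (R - n0) = p) := by
        intro v hv
        rw [Finset.mem_Ico] at hv
        rw [Finset.mem_filter, Finset.mem_range]
        constructor
        · calc v < (p + 1) * 2 ^ (R - n0) := hv.2
            _ ≤ 2 ^ n0 * 2 ^ (R - n0) := Nat.mul_le_mul_right _ hp
            _ = 2 ^ R := by rw [← pow_add]; congr 1; omega
        · exact (Nat.div_eq_iff (by positivity)).mpr ⟨hv.1, by
            have := hv.2
            rw [add_mul, one_mul] at this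
            omega⟩
      calc 2 ^ (R - n0) = (Finset.Ico (p * 2 ^ (R - n0)) ((p + 1) * 2 ^ (R - n0))).card := by
            rw [Nat.card_Ico, add_mul, one_mul, Nat.add_sub_cancel_left]
        _ ≤ _ := Finset.card_le_card hsub
    have hup : ((Finset.range (2 ^ R)).filter (fun v => v / 2 ^ (R - n0) = p ∧
        bad1 α (2 / 2 ^ e) (v / 2 ^ (R - (n0 + e + 1))))).card ≤
        2 ^ (R - (n0 + e + 1)) * 64 := by
      set T := (Finset.range (2 ^ R)).filter (fun v => v / 2 ^ (R - n0) = p ∧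
        bad1 α (2 / 2 ^ e) (v / 2 ^ (R - (n0 + e + 1)))) with hT
      have himg : T.image (fun v => v / 2 ^ (R - (n0 + e + 1))) ⊆
          (Finset.Ico (p * 2 ^ (e + 1)) (p * 2 ^ (e + 1) + 2 ^ (e + 1))).filter
            (fun c => bad1 α (2 / 2 ^ e) c) := by
        intro c hc
        obtain ⟨v, hv, rfl⟩ := Finset.mem_image.mp hc
        rw [hT, Finset.mem_filter] at hv
        obtain ⟨-, hv1, hv2⟩ := hv
        rw [Finset.mem_filter, Finset.mem_Ico]
        refine ⟨?_, hv2⟩
        have h3 : v / 2 ^ (R - (n0 + e + 1)) / 2 ^ (e + 1) = p := by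
          rw [Nat.div_div_eq_div_mul, ← pow_add, ← hRn]
          exact hv1
        have h4 := (Nat.div_eq_iff (by positivity : 0 < 2 ^ (e + 1))).mp h3
        have h5 : 0 < 2 ^ (e + 1) := by positivity
        omega
      have hfib : ∀ c ∈ T.image (fun v => v / 2 ^ (R - (n0 + e + 1))),
          (T.filter (fun v => v / 2 ^ (R - (n0 + e + 1)) = c)).card ≤
            2 ^ (R - (n0 + e + 1)) := by
        intro c _
        have hsub : T.filter (fun v => v / 2 ^ (R - (n0 + e + 1)) = c) ⊆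
            Finset.Ico (c * 2 ^ (R - (n0 + e + 1))) ((c + 1) * 2 ^ (R - (n0 + e + 1))) := by
          intro v hv
          rw [Finset.mem_filter] at hv
          have h4 := (Nat.div_eq_iff (by positivity : 0 < 2 ^ (R - (n0 + e + 1)))).mp hv.2
          have h5 : 0 < 2 ^ (R - (n0 + e + 1)) := by positivity
          rw [Finset.mem_Ico, add_mul, one_mul]
          omega
        calc _ ≤ (Finset.Ico (c * 2 ^ (R - (n0 + e + 1)))
              ((c + 1) * 2 ^ (R - (n0 + e + 1)))).card := Finset.card_le_card hsub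
          _ = 2 ^ (R - (n0 + e + 1)) := by
              rw [Nat.card_Ico, add_mul, one_mul, Nat.add_sub_cancel_left]
      calc T.card ≤ 2 ^ (R - (n0 + e + 1)) *
            (T.image (fun v => v / 2 ^ (R - (n0 + e + 1)))).card :=
            Finset.card_le_mul_card_image T _ hfib
        _ ≤ 2 ^ (R - (n0 + e + 1)) * 64 := by
            refine Nat.mul_le_mul_left _ (le_trans (Finset.card_le_card himg) ?_)
            exact bad1_count e α h1 h2 _
    calc _ ≤ (2 ^ (R - (n0 + e + 1)) * 64) * 2 ^ (e + 1) := Nat.mul_le_mul_right _ hup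
      _ = 64 * 2 ^ (R - n0) := by rw [hRn, pow_add]; ring
      _ ≤ _ := Nat.mul_le_mul_left _ hlow
  · have hem : (Finset.range (2 ^ R)).filter (fun v => v / 2 ^ (R - n0) = p ∧
        bad1 α (2 / 2 ^ e) (v / 2 ^ (R - (n0 + e + 1)))) = ∅ := by
      rw [Finset.filter_eq_empty_iff]
      rintro v hv ⟨h3, -⟩
      rw [Finset.mem_range] at hv
      apply hp
      rw [← h3]
      apply Nat.div_lt_of_lt_mul
      rw [← pow_add]
      have : R - n0 + n0 = R := by omega
      rw [this]
      exact hv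
    rw [hem]
    simp

/-- `2 ^ lev ≤ lam d < 2 ^ (lev + 1)`. -/
noncomputable def lev (lam : ℝ) (d : ℕ) : ℕ := Nat.log 2 ⌊lam * d⌋₊

theorem lev_spec (lam : ℝ) (d : ℕ) (h : 1 ≤ lam * d) :
    (2 : ℝ) ^ lev lam d ≤ lam * d ∧ lam * d < 2 ^ (lev lam d + 1) := by
  have h1 : 1 ≤ ⌊lam * (d : ℝ)⌋₊ := Nat.le_floor (by exact_mod_cast h)
  constructor
  · have h2 : 2 ^ lev lam d ≤ ⌊lam * (d : ℝ)⌋₊ := Nat.pow_log_le_self 2 (by omega)
    have h3 : ((⌊lam * (d : ℝ)⌋₊ : ℕ) : ℝ) ≤ lam * d := Nat.floor_le (by linarith)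
    calc (2 : ℝ) ^ lev lam d = ((2 ^ lev lam d : ℕ) : ℝ) := by push_cast; ring
      _ ≤ ((⌊lam * (d : ℝ)⌋₊ : ℕ) : ℝ) := by exact_mod_cast h2
      _ ≤ _ := h3
  · have h2 : ⌊lam * (d : ℝ)⌋₊ < 2 ^ (lev lam d + 1) :=
      Nat.lt_pow_succ_log_self (by norm_num) _
    have h3 := Nat.lt_of_floor_lt h2
    calc lam * d < ((2 ^ (lev lam d + 1) : ℕ) : ℝ) := h3
      _ = 2 ^ (lev lam d + 1) := by push_cast; ring

/-- The vector `u` is bad for `d`: all coordinates are. -/
def Bad (lam : ℝ) (e R k : ℕ) (d : ℕ) (u : Fin k → ℕ) : Prop :=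
  ∀ i, bad1 (lam * d / 2 ^ (lev lam d + e + 1)) (2 / 2 ^ e) (u i / 2 ^ (R - (lev lam d + e + 1)))

/-- The cube of integer vectors. -/
def Om (R k : ℕ) : Finset (Fin k → ℕ) := Fintype.piFinset (fun _ => Finset.range (2 ^ R))

open Classical in
theorem local_count (lam : ℝ) (e R k d : ℕ) (hd : 1 ≤ lam * d) (hR : lev lam d + e + 1 ≤ R)
    (G : Finset (Fin k → ℕ)) (hG : G ⊆ Om R k)
    (hdep : ∀ u ∈ Om R k, ∀ v ∈ Om R k,
      (∀ i, u i / 2 ^ (R - lev lam d) = v i / 2 ^ (R - lev lam d)) → u ∈ G → v ∈ G) :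
    (G.filter (Bad lam e R k d)).card * 2 ^ ((e + 1) * k) ≤ 64 ^ k * G.card := by
  obtain ⟨l1, l2⟩ := lev_spec lam d hd
  set n0 := lev lam d with hn0
  set α : ℝ := lam * d / 2 ^ (n0 + e + 1) with hα
  have ha1 : 1 / 2 ^ (e + 1) ≤ α := by
    rw [hα, div_le_div_iff₀ (by positivity) (by positivity), one_mul]
    calc (2 : ℝ) ^ (n0 + e + 1) = 2 ^ n0 * 2 ^ (e + 1) := by rw [← pow_add]; congr 1
      _ ≤ lam * d * 2 ^ (e + 1) := by
        apply mul_le_mul_of_nonneg_right l1 (by positivity)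
  have ha2 : α < 1 / 2 ^ e := by
    rw [hα, div_lt_div_iff₀ (by positivity) (by positivity), one_mul]
    calc lam * d * 2 ^ e < 2 ^ (n0 + 1) * 2 ^ e := by
          apply mul_lt_mul_of_pos_right l2 (by positivity)
      _ = 2 ^ (n0 + e + 1) := by rw [← pow_add]; congr 1; omega
  set par : (Fin k → ℕ) → (Fin k → ℕ) := fun u i => u i / 2 ^ (R - n0) with hpar
  have s1 : (G.filter (Bad lam e R k d)).card =
      ∑ p ∈ G.image par, ((G.filter (Bad lam e R k d)).filter (fun u => par u = p)).card :=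
    Finset.card_eq_sum_card_fiberwise (fun u hu => by
      have hu' : u ∈ G := (Finset.mem_filter.mp (Finset.mem_coe.mp hu)).1
      exact Finset.mem_coe.mpr (Finset.mem_image_of_mem par hu'))
  have s2 : G.card = ∑ p ∈ G.image par, (G.filter (fun u => par u = p)).card :=
    Finset.card_eq_sum_card_fiberwise (fun u hu =>
      Finset.mem_coe.mpr (Finset.mem_image_of_mem par (Finset.mem_coe.mp hu)))
  rw [s1, s2, Finset.sum_mul, Finset.mul_sum]
  refine Finset.sum_le_sum (fun p hp => ?_)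
  obtain ⟨u0, hu0, hu0p⟩ := Finset.mem_image.mp hp
  have e1 : (G.filter (Bad lam e R k d)).filter (fun u => par u = p) =
      Fintype.piFinset (fun i => (Finset.range (2 ^ R)).filter (fun v => v / 2 ^ (R - n0) = p i ∧
        bad1 α (2 / 2 ^ e) (v / 2 ^ (R - (n0 + e + 1))))) := by
    ext u
    simp only [Finset.mem_filter, Fintype.mem_piFinset]
    constructor
    · rintro ⟨⟨h3, h4⟩, h5⟩ i
      have h6 := hG h3
      rw [Om, Fintype.mem_piFinset] at h6
      exact ⟨h6 i, congrFun h5 i, h4 i⟩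
    · intro h
      have huo : u ∈ Om R k := by
        rw [Om, Fintype.mem_piFinset]
        exact fun i => (h i).1
      have hpu : par u = p := funext (fun i => (h i).2.1)
      refine ⟨⟨hdep u0 (hG hu0) u huo (fun i => ?_) hu0, fun i => (h i).2.2⟩, hpu⟩
      have h7 := congrFun hu0p i
      have h8 := congrFun hpu i
      exact h7.trans h8.symm
  have e2 : G.filter (fun u => par u = p) =
      Fintype.piFinset (fun i => (Finset.range (2 ^ R)).filter
        (fun v => v / 2 ^ (R - n0) = p i)) := by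
    ext u
    simp only [Finset.mem_filter, Fintype.mem_piFinset]
    constructor
    · rintro ⟨h3, h5⟩ i
      have h6 := hG h3
      rw [Om, Fintype.mem_piFinset] at h6
      exact ⟨h6 i, congrFun h5 i⟩
    · intro h
      have huo : u ∈ Om R k := by
        rw [Om, Fintype.mem_piFinset]
        exact fun i => (h i).1
      have hpu : par u = p := funext (fun i => (h i).2)
      refine ⟨hdep u0 (hG hu0) u huo (fun i => ?_) hu0, hpu⟩
      have h7 := congrFun hu0p i
      have h8 := congrFun hpu i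
      exact h7.trans h8.symm
  rw [e1, e2, Fintype.card_piFinset, Fintype.card_piFinset]
  have e3 : (2 : ℕ) ^ ((e + 1) * k) = ∏ _i : Fin k, 2 ^ (e + 1) := by
    rw [Finset.prod_const, Finset.card_univ, Fintype.card_fin, pow_mul]
  have e4 : (64 : ℕ) ^ k = ∏ _i : Fin k, 64 := by
    rw [Finset.prod_const, Finset.card_univ, Fintype.card_fin]
  rw [e3, e4, ← Finset.prod_mul_distrib, ← Finset.prod_mul_distrib]
  exact Finset.prod_le_prod' (fun i _ => oneDim R n0 e hR α ha1 ha2 (p i))

open Classical in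
/-- The vectors which are not bad for the `d ∈ D` below `x`. -/
noncomputable def Good (D : Finset ℕ) (lam : ℝ) (e R k x : ℕ) : Finset (Fin k → ℕ) :=
  (Om R k).filter (fun u => ∀ d ∈ D, d < x → ¬ Bad lam e R k d u)

open Classical in
theorem good_dep (D : Finset ℕ) (lam : ℝ) (e R k d : ℕ) (hlam : ∀ d ∈ D, 1 ≤ lam * d)
    (hd : d ∈ D) (hR : lev lam d + e + 1 ≤ R) :
    ∀ u ∈ Om R k, ∀ v ∈ Om R k,
      (∀ i, u i / 2 ^ (R - lev lam d) = v i / 2 ^ (R - lev lam d)) →
      u ∈ Good D lam e R k (d / 2 ^ (e + 1) + 1) →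
      v ∈ Good D lam e R k (d / 2 ^ (e + 1) + 1) := by
  intro u _ v hv huv hu
  rw [Good, Finset.mem_filter] at hu ⊢
  refine ⟨hv, fun d' hd' hlt hbad => hu.2 d' hd' hlt ?_⟩
  have h1 := hlam d' hd'
  obtain ⟨a1, -⟩ := lev_spec lam d' h1
  obtain ⟨-, b2⟩ := lev_spec lam d (hlam d hd)
  have hd0 : (0 : ℝ) ≤ d' := Nat.cast_nonneg _
  have hlam0 : 0 < lam := by
    by_contra hc
    push Not at hc
    have : lam * d' ≤ 0 := mul_nonpos_of_nonpos_of_nonneg hc hd0
    linarith
  have hle : d' * 2 ^ (e + 1) ≤ d := by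
    have : d' ≤ d / 2 ^ (e + 1) := by omega
    calc d' * 2 ^ (e + 1) ≤ d / 2 ^ (e + 1) * 2 ^ (e + 1) := Nat.mul_le_mul_right _ this
      _ ≤ d := Nat.div_mul_le_self _ _
  have hle' : (d' : ℝ) * 2 ^ (e + 1) ≤ d := by exact_mod_cast hle
  have hlev : lev lam d' + e + 1 ≤ lev lam d := by
    have h3 : (2 : ℝ) ^ (lev lam d' + (e + 1)) < 2 ^ (lev lam d + 1) := by
      calc (2 : ℝ) ^ (lev lam d' + (e + 1)) = 2 ^ lev lam d' * 2 ^ (e + 1) := by rw [pow_add]
        _ ≤ lam * d' * 2 ^ (e + 1) := mul_le_mul_of_nonneg_right a1 (by positivity)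
        _ = lam * (d' * 2 ^ (e + 1)) := by ring
        _ ≤ lam * d := mul_le_mul_of_nonneg_left hle' hlam0.le
        _ < _ := b2
    have h4 := (pow_lt_pow_iff_right₀ (by norm_num : (1 : ℝ) < 2)).mp h3
    omega
  intro i
  have h5 : ∀ w : ℕ, w / 2 ^ (R - (lev lam d' + e + 1)) =
      w / 2 ^ (R - lev lam d) / 2 ^ (lev lam d - (lev lam d' + e + 1)) := by
    intro w
    rw [Nat.div_div_eq_div_mul, ← pow_add]
    congr 2
    omega
  have h6 := hbad i
  rw [h5 (v i), ← huv i, ← h5 (u i)] at h6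
  exact h6

open Classical in
theorem good_succ (D : Finset ℕ) (lam : ℝ) (e R k x : ℕ) (hx : x ∈ D) :
    ((Good D lam e R k (x + 1)).card : ℝ) = (Good D lam e R k x).card -
      ((Good D lam e R k x).filter (Bad lam e R k x)).card := by
  have h1 : Good D lam e R k (x + 1) =
      (Good D lam e R k x).filter (fun u => ¬ Bad lam e R k x u) := by
    ext u
    simp only [Good, Finset.mem_filter]
    constructor
    · rintro ⟨h2, h3⟩
      exact ⟨⟨h2, fun d hd hdx => h3 d hd (by omega)⟩, h3 x hx (by omega)⟩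
    · rintro ⟨⟨h2, h3⟩, h4⟩
      refine ⟨h2, fun d hd hdx => ?_⟩
      rcases Nat.lt_succ_iff_lt_or_eq.mp hdx with h5 | h5
      · exact h3 d hd h5
      · rw [h5]; exact h4
  have h2 := Finset.card_filter_add_card_filter_not (s := Good D lam e R k x)
    (Bad lam e R k x)
  rw [h1]
  have h3 : ((((Good D lam e R k x).filter (Bad lam e R k x)).card +
    ((Good D lam e R k x).filter (fun u => ¬ Bad lam e R k x u)).card : ℕ) : ℝ) =
    ((Good D lam e R k x).card : ℝ) := by exact_mod_cast h2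
  push_cast at h3
  linarith

theorem good_succ' (D : Finset ℕ) (lam : ℝ) (e R k x : ℕ) (hx : x ∉ D) :
    Good D lam e R k (x + 1) = Good D lam e R k x := by
  ext u
  simp only [Good, Finset.mem_filter]
  constructor
  · rintro ⟨h2, h3⟩
    exact ⟨h2, fun d hd hdx => h3 d hd (by omega)⟩
  · rintro ⟨h2, h3⟩
    refine ⟨h2, fun d hd hdx => ?_⟩
    rcases Nat.lt_succ_iff_lt_or_eq.mp hdx with h5 | h5
    · exact h3 d hd h5
    · rw [h5] at hd; exact absurd hd hx

open Classical in
theorem good_anti (D : Finset ℕ) (lam : ℝ) (e R k x y : ℕ) (hxy : x ≤ y) :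
    Good D lam e R k y ⊆ Good D lam e R k x := by
  intro u hu
  rw [Good, Finset.mem_filter] at hu ⊢
  exact ⟨hu.1, fun d hd hdx => hu.2 d hd (by omega)⟩

open Classical in
/-- The number of the good vectors decreases slowly. -/
theorem good_step (D : Finset ℕ) (lam : ℝ) (e R k H : ℕ) (y : ℕ) (hH : 1 ≤ H)
    (hA : ∀ d ∈ D, d < y → 2 * (H : ℝ) *
      ((Good D lam e R k d).filter (Bad lam e R k d)).card ≤ (Good D lam e R k d).card)
    (x : ℕ) (hxy : x ≤ y) :
    (1 - 1 / (2 * (H : ℝ))) ^ ((Finset.Ico x y).filter (· ∈ D)).card *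
      ((Good D lam e R k x).card : ℝ) ≤ (Good D lam e R k y).card := by
  have hH' : (1 : ℝ) ≤ H := by exact_mod_cast hH
  have hq : 0 ≤ 1 - 1 / (2 * (H : ℝ)) := by
    have : 1 / (2 * (H : ℝ)) ≤ 1 := by
      rw [div_le_one (by positivity)]; linarith
    linarith
  induction y with
  | zero =>
    have : x = 0 := by omega
    subst this
    simp
  | succ y ih =>
    rcases Nat.lt_or_ge x (y + 1) with hlt | hge
    · have hxy' : x ≤ y := by omega
      have ih' := ih (fun d hd hdy => hA d hd (by omega)) hxy'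
      have hIco : (Finset.Ico x (y + 1)).filter (· ∈ D) =
          (insert y (Finset.Ico x y)).filter (· ∈ D) := by
        congr 1
        ext z
        simp only [Finset.mem_Ico, Finset.mem_insert]
        omega
      by_cases hyD : y ∈ D
      · rw [hIco, Finset.filter_insert, if_pos hyD, Finset.card_insert_of_notMem (by simp),
          pow_succ, good_succ D lam e R k y hyD]
        have h1 := hA y hyD (by omega)
        have h2 : (((Good D lam e R k y).filter (Bad lam e R k y)).card : ℝ) ≤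
            1 / (2 * (H : ℝ)) * (Good D lam e R k y).card := by
          rw [one_div, inv_mul_eq_div, le_div_iff₀ (by positivity)]
          linarith
        have h3 : (1 - 1 / (2 * (H : ℝ))) *
            ((1 - 1 / (2 * (H : ℝ))) ^ ((Finset.Ico x y).filter (· ∈ D)).card *
              ((Good D lam e R k x).card : ℝ)) ≤
            (1 - 1 / (2 * (H : ℝ))) * (Good D lam e R k y).card :=
          mul_le_mul_of_nonneg_left ih' hq
        linarith
      · rw [hIco, Finset.filter_insert, if_neg hyD, good_succ' D lam e R k y hyD]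
        exact ih'
    · have : x = y + 1 := by omega
      subst this
      simp

open Classical in
theorem bad_few (D : Finset ℕ) (lam : ℝ) (e R k H : ℕ) (hH : 1 ≤ H)
    (hlam : ∀ d ∈ D, 1 ≤ lam * d)
    (hR : ∀ d ∈ D, lev lam d + e + 1 ≤ R)
    (hHc : ∀ d ∈ D, ((Finset.Ico (d / 2 ^ (e + 1) + 1) d).filter (· ∈ D)).card ≤ H)
    (hq : 4 * H * 64 ^ k ≤ 2 ^ ((e + 1) * k)) :
    ∀ d ∈ D, 2 * (H : ℝ) *
      ((Good D lam e R k d).filter (Bad lam e R k d)).card ≤ (Good D lam e R k d).card := by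
  intro d
  induction d using Nat.strong_induction_on with
  | _ d ih =>
    intro hd
    have hH' : (1 : ℝ) ≤ H := by exact_mod_cast hH
    have hd1 : 1 ≤ d := by
      rcases Nat.eq_zero_or_pos d with h0 | h0
      · have := hlam d hd
        rw [h0] at this
        norm_num at this
      · exact h0
    have hx0 : d / 2 ^ (e + 1) + 1 ≤ d := by
      have h1 : d / 2 ^ (e + 1) ≤ d / 2 := by
        apply Nat.div_le_div_left _ (by norm_num)
        calc 2 = 2 ^ 1 := by norm_num
          _ ≤ 2 ^ (e + 1) := Nat.pow_le_pow_right (by norm_num) (by omega)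
      omega
    have hstep := good_step D lam e R k H d hH (fun d' hd' hlt => ih d' hlt hd') _ hx0
    have hloc := local_count lam e R k d (hlam d hd) (hR d hd)
      (Good D lam e R k (d / 2 ^ (e + 1) + 1)) (Finset.filter_subset _ _)
      (good_dep D lam e R k d hlam hd (hR d hd))
    have hsub : ((Good D lam e R k d).filter (Bad lam e R k d)).card ≤
        ((Good D lam e R k (d / 2 ^ (e + 1) + 1)).filter (Bad lam e R k d)).card :=
      Finset.card_le_card (Finset.filter_subset_filter _ (good_anti D lam e R k _ _ hx0))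
    set g0 : ℝ := ((Good D lam e R k (d / 2 ^ (e + 1) + 1)).card : ℝ) with hg0
    set g1 : ℝ := ((Good D lam e R k d).card : ℝ) with hg1
    set b0 : ℝ := (((Good D lam e R k (d / 2 ^ (e + 1) + 1)).filter
      (Bad lam e R k d)).card : ℝ) with hb0
    set b1 : ℝ := (((Good D lam e R k d).filter (Bad lam e R k d)).card : ℝ) with hb1
    have hb : b1 ≤ b0 := by
      rw [hb1, hb0]
      exact_mod_cast hsub
    have hg0n : 0 ≤ g0 := Nat.cast_nonneg _
    have hloc' : b0 * 2 ^ ((e + 1) * k) ≤ 64 ^ k * g0 := by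
      rw [hb0, hg0]
      exact_mod_cast hloc
    have hq' : 4 * (H : ℝ) * 64 ^ k ≤ 2 ^ ((e + 1) * k) := by exact_mod_cast hq
    have hb0n : 0 ≤ b0 := Nat.cast_nonneg _
    have h64 : (0 : ℝ) < 64 ^ k := by positivity
    have h4 : 4 * (H : ℝ) * b0 ≤ g0 := by
      have : 4 * (H : ℝ) * 64 ^ k * b0 ≤ 64 ^ k * g0 := by
        calc 4 * (H : ℝ) * 64 ^ k * b0 ≤ 2 ^ ((e + 1) * k) * b0 :=
              mul_le_mul_of_nonneg_right hq' hb0n
          _ = b0 * 2 ^ ((e + 1) * k) := by ring
          _ ≤ _ := hloc'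
      have h5 : 64 ^ k * (4 * (H : ℝ) * b0) ≤ 64 ^ k * g0 := by linarith
      exact le_of_mul_le_mul_left h5 h64
    have hhalf : (1 : ℝ) / 2 ≤ (1 - 1 / (2 * (H : ℝ))) ^
        ((Finset.Ico (d / 2 ^ (e + 1) + 1) d).filter (· ∈ D)).card := by
      have hq0 : 0 ≤ 1 - 1 / (2 * (H : ℝ)) := by
        have : 1 / (2 * (H : ℝ)) ≤ 1 := by
          rw [div_le_one (by positivity)]; linarith
        linarith
      have hq1 : 1 - 1 / (2 * (H : ℝ)) ≤ 1 := by
        have : 0 ≤ 1 / (2 * (H : ℝ)) := by positivity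
        linarith
      have hb2 : (1 : ℝ) + H * (-(1 / (2 * (H : ℝ)))) ≤ (1 + -(1 / (2 * (H : ℝ)))) ^ H := by
        apply one_add_mul_le_pow
        have : 1 / (2 * (H : ℝ)) ≤ 1 := by
          rw [div_le_one (by positivity)]; linarith
        linarith
      have hb3 : (1 : ℝ) + H * (-(1 / (2 * (H : ℝ)))) = 1 / 2 := by field_simp; ring
      calc (1 : ℝ) / 2 ≤ (1 - 1 / (2 * (H : ℝ))) ^ H := by
            rw [hb3] at hb2
            rw [sub_eq_add_neg]
            exact hb2
        _ ≤ _ := pow_le_pow_of_le_one hq0 hq1 (hHc d hd)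
    have h6 : 1 / 2 * g0 ≤ g1 := by
      calc 1 / 2 * g0 ≤ _ := mul_le_mul_of_nonneg_right hhalf hg0n
        _ ≤ g1 := hstep
    nlinarith

/-- **Peres–Schlag, in dimension `k` and scaled.** -/
theorem peresSchlag (D : Finset ℕ) (lam : ℝ) (e k H : ℕ) (hH : 1 ≤ H)
    (hlam : ∀ d ∈ D, 1 ≤ lam * d)
    (hHc : ∀ d ∈ D, ((Finset.Ico (d / 2 ^ (e + 1) + 1) d).filter (· ∈ D)).card ≤ H)
    (hq : 4 * H * 64 ^ k ≤ 2 ^ ((e + 1) * k)) :
    ∃ θ : Fin k → ℝ, (∀ i, 0 ≤ θ i ∧ θ i < 1) ∧
      ∀ d ∈ D, ∃ i, ∀ z : ℤ, 1 / 2 ^ e ≤ |lam * d * θ i - z| := by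
  classical
  set R := (D.sup (fun d => lev lam d)) + e + 1 with hRdef
  have hR : ∀ d ∈ D, lev lam d + e + 1 ≤ R := by
    intro d hd
    have : lev lam d ≤ D.sup (fun d => lev lam d) :=
      Finset.le_sup (f := fun d => lev lam d) hd
    omega
  have hbf := bad_few D lam e R k H hH hlam hR hHc hq
  have hH' : (1 : ℝ) ≤ H := by exact_mod_cast hH
  set N := D.sup id + 1 with hN
  have hstep := good_step D lam e R k H N hH (fun d hd _ => hbf d hd) 0 (Nat.zero_le _)
  have hom : (Good D lam e R k 0) = Om R k := by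
    rw [Good]
    apply Finset.filter_true_of_mem
    intro u _ d _ hd0
    omega
  have hpos : 0 < ((Good D lam e R k N).card : ℝ) := by
    refine lt_of_lt_of_le ?_ hstep
    apply mul_pos
    · apply pow_pos
      have : 1 / (2 * (H : ℝ)) < 1 := by
        rw [div_lt_one (by positivity)]; linarith
      linarith
    · rw [hom, Om, Fintype.card_piFinset]
      simp
  have hne : (Good D lam e R k N).Nonempty := by
    rw [← Finset.card_pos]
    exact_mod_cast hpos
  obtain ⟨u, hu⟩ := hne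
  rw [Good, Finset.mem_filter, Om, Fintype.mem_piFinset] at hu
  obtain ⟨hu1, hu2⟩ := hu
  refine ⟨fun i => (u i : ℝ) / 2 ^ R, fun i => ⟨by positivity, ?_⟩, fun d hd => ?_⟩
  · rw [div_lt_one (by positivity)]
    exact_mod_cast Finset.mem_range.mp (hu1 i)
  · have hdN : d < N := by
      have := Finset.le_sup (f := id) hd
      simp only [id] at this
      omega
    have hnb := hu2 d hd hdN
    unfold Bad at hnb
    push Not at hnb
    obtain ⟨i, hi⟩ := hnb
    refine ⟨i, fun z => ?_⟩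
    unfold bad1 at hi
    push Not at hi
    obtain ⟨l1, l2⟩ := lev_spec lam d (hlam d hd)
    set l := lev lam d + e + 1 with hl
    have hlR := hR d hd
    set c := u i / 2 ^ (R - l) with hc
    have hα2 : lam * d / 2 ^ l < 1 / 2 ^ e := by
      rw [div_lt_div_iff₀ (by positivity) (by positivity), one_mul]
      calc lam * d * 2 ^ e < 2 ^ (lev lam d + 1) * 2 ^ e := by
            apply mul_lt_mul_of_pos_right l2 (by positivity)
        _ = 2 ^ l := by rw [← pow_add]; congr 1; omega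
    have hlampos : 0 ≤ lam * d := by have := hlam d hd; linarith
    -- `u / 2 ^ R` is in the cell of `c`
    have hc1 : (c : ℝ) / 2 ^ l ≤ (u i : ℝ) / 2 ^ R := by
      rw [div_le_div_iff₀ (by positivity) (by positivity)]
      have h1 : c * 2 ^ (R - l) ≤ u i := Nat.div_mul_le_self _ _
      have h2 : c * 2 ^ R ≤ u i * 2 ^ l := by
        calc c * 2 ^ R = c * 2 ^ (R - l) * 2 ^ l := by
              rw [mul_assoc, ← pow_add]; congr 2; omega
          _ ≤ u i * 2 ^ l := Nat.mul_le_mul_right _ h1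
      exact_mod_cast h2
    have hc2 : (u i : ℝ) / 2 ^ R < ((c : ℝ) + 1) / 2 ^ l := by
      rw [div_lt_div_iff₀ (by positivity) (by positivity)]
      have h1 : u i < (c + 1) * 2 ^ (R - l) := by
        rw [hc, mul_comm]
        exact Nat.lt_mul_div_succ (u i) (by positivity)
      have h2 : u i * 2 ^ l < (c + 1) * 2 ^ R := by
        calc u i * 2 ^ l < (c + 1) * 2 ^ (R - l) * 2 ^ l :=
              Nat.mul_lt_mul_of_pos_right h1 (by positivity)
          _ = (c + 1) * 2 ^ R := by
              rw [mul_assoc, ← pow_add]; congr 2; omega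
      exact_mod_cast h2
    have h3 : |lam * d * ((u i : ℝ) / 2 ^ R) - (c : ℝ) * (lam * d / 2 ^ l)| ≤ 1 / 2 ^ e := by
      rw [abs_le]
      have e1 : (c : ℝ) * (lam * d / 2 ^ l) = lam * d * ((c : ℝ) / 2 ^ l) := by ring
      have e2 : lam * d * ((c : ℝ) / 2 ^ l) ≤ lam * d * ((u i : ℝ) / 2 ^ R) :=
        mul_le_mul_of_nonneg_left hc1 hlampos
      have e3 : lam * d * ((u i : ℝ) / 2 ^ R) ≤ lam * d * (((c : ℝ) + 1) / 2 ^ l) :=
        mul_le_mul_of_nonneg_left hc2.le hlampos
      have e4 : lam * d * (((c : ℝ) + 1) / 2 ^ l) =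
          lam * d * ((c : ℝ) / 2 ^ l) + lam * d / 2 ^ l := by ring
      have e5 : (0 : ℝ) < 1 / 2 ^ e := by positivity
      constructor <;> linarith
    have h4 : |(c : ℝ) * (lam * d / 2 ^ l) - round ((c : ℝ) * (lam * d / 2 ^ l))| ≤
        |(c : ℝ) * (lam * d / 2 ^ l) - z| := round_le _ z
    have h5 : |(c : ℝ) * (lam * d / 2 ^ l) - z| ≤
        |lam * d * ((u i : ℝ) / 2 ^ R) - (c : ℝ) * (lam * d / 2 ^ l)| +
        |lam * d * ((u i : ℝ) / 2 ^ R) - z| := by
      have : (c : ℝ) * (lam * d / 2 ^ l) - z =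
          -(lam * d * ((u i : ℝ) / 2 ^ R) - (c : ℝ) * (lam * d / 2 ^ l)) +
            (lam * d * ((u i : ℝ) / 2 ^ R) - z) := by ring
      rw [this]
      refine (abs_add_le _ _).trans ?_
      rw [abs_neg]
    have h6 : (2 : ℝ) / 2 ^ e = 1 / 2 ^ e + 1 / 2 ^ e := by ring
    linarith

end Pool.Agent.H562.NP
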