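import Pool.Agent.H562.NP.Asym3

/-! Differences composed of the primes of a finite set. -/

set_option autoImplicit false

open Finset Filter

namespace Pool.Agent.H562.NP

/-- The positive integers all of whose prime divisors are in `P`. -/
def Smooth (P : Finset ℕ) : Set ℕ := {d | d ≠ 0 ∧ ∀ p : ℕ, p.Prime → p ∣ d → p ∈ P}

theorem smooth_count (P : Finset ℕ) (x : ℕ) :
    (Smooth P ∩ Set.Ico x (2 * x)).ncard ≤ (Nat.log 2 (2 * x) + 1) ^ P.card := by
  classical
  set T : Finset (P → ℕ) := Fintype.piFinset (fun _ : P => Finset.range (Nat.log 2 (2 * x) + 1))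
    with hT
  have hTcard : T.card = (Nat.log 2 (2 * x) + 1) ^ P.card := by
    rw [hT, Fintype.card_piFinset]
    simp
  rw [← hTcard, ← Set.ncard_coe_finset T]
  apply Set.ncard_le_ncard_of_injOn (fun d (p : P) => d.factorization p)
  · rintro d ⟨⟨hd0, hd⟩, hd1, hd2⟩
    rw [hT, Finset.mem_coe, Fintype.mem_piFinset]
    intro p
    rw [Finset.mem_range, Nat.lt_succ_iff]
    by_cases hp : (p : ℕ).Prime
    · apply Nat.le_log_of_pow_le (by norm_num)
      calc 2 ^ d.factorization p ≤ (p : ℕ) ^ d.factorization p :=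
            Nat.pow_le_pow_left hp.two_le _
        _ ≤ d := Nat.le_of_dvd (Nat.pos_of_ne_zero hd0) (Nat.ordProj_dvd d p)
        _ ≤ 2 * x := hd2.le
    · rw [Nat.factorization_eq_zero_of_not_prime _ hp]
      exact Nat.zero_le _
  · rintro d ⟨⟨hd0, hd⟩, -⟩ d' ⟨⟨hd0', hd'⟩, -⟩ heq
    apply Nat.eq_of_factorization_eq hd0 hd0'
    intro p
    by_cases hp : p.Prime
    · by_cases hpP : p ∈ P
      · exact congrFun heq ⟨p, hpP⟩
      · rw [Nat.factorization_eq_zero_of_not_dvd (fun h => hpP (hd p hp h)),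
          Nat.factorization_eq_zero_of_not_dvd (fun h => hpP (hd' p hp h))]
    · rw [Nat.factorization_eq_zero_of_not_prime _ hp,
        Nat.factorization_eq_zero_of_not_prime _ hp]

theorem smooth_bound (P : Finset ℕ) : ∃ x₀ : ℕ, ∀ x, x₀ ≤ x →
    ((Smooth P ∩ Set.Ico x (2 * x)).ncard : ℝ) ≤ Real.exp (LL x ^ 2 / 60) := by
  have hl2 : 0 < Real.log 2 := Real.log_pos (by norm_num)
  have hev := tendsto_LL.eventually
    (lin_le_sq (P.card : ℝ) ((P.card : ℝ) * Real.log (3 / Real.log 2)) (1 / 60) (by norm_num))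
  obtain ⟨n₁, hn₁⟩ := eventually_atTop.mp hev
  refine ⟨max n₁ 3, fun x hx => ?_⟩
  have hx3 : 3 ≤ x := le_trans (le_max_right _ _) hx
  have h1 := hn₁ x (le_trans (le_max_left _ _) hx)
  have h2 : ((Smooth P ∩ Set.Ico x (2 * x)).ncard : ℝ) ≤
      ((Nat.log 2 (2 * x) : ℝ) + 1) ^ P.card := by exact_mod_cast smooth_count P x
  refine h2.trans ?_
  have hx' : (2 : ℝ) ≤ x := by
    have : (3 : ℝ) ≤ x := by exact_mod_cast hx3
    linarith
  have hlx : Real.log 2 ≤ Real.log x := Real.log_le_log (by norm_num) hx'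
  have h3 : 2 ^ Nat.log 2 (2 * x) ≤ 2 * x := Nat.pow_log_le_self 2 (by omega)
  have h4 : (2 : ℝ) ^ Nat.log 2 (2 * x) ≤ 2 * x := by exact_mod_cast h3
  have h5 : (Nat.log 2 (2 * x) : ℝ) * Real.log 2 ≤ Real.log 2 + Real.log x := by
    rw [← Real.log_pow, ← Real.log_mul (by norm_num) (by positivity)]
    exact Real.log_le_log (by positivity) h4
  have h6 : (Nat.log 2 (2 * x) : ℝ) + 1 ≤ 3 / Real.log 2 * Real.log x := by
    rw [div_mul_eq_mul_div, le_div_iff₀ hl2]
    nlinarith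
  have h7 : 3 / Real.log 2 * Real.log x = Real.exp (Real.log (3 / Real.log 2) + LL x) := by
    rw [Real.exp_add, Real.exp_log (by positivity), exp_LL x hx3]
  calc ((Nat.log 2 (2 * x) : ℝ) + 1) ^ P.card ≤
      (Real.exp (Real.log (3 / Real.log 2) + LL x)) ^ P.card := by
        rw [← h7]
        exact pow_le_pow_left₀ (by positivity) h6 _
    _ = Real.exp ((P.card : ℝ) * (Real.log (3 / Real.log 2) + LL x)) := by
        rw [← Real.exp_nat_mul]
    _ ≤ _ := by
        apply Real.exp_le_exp.mpr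
        linarith

/-- From `exp (- c L ^ 2)`, `c ≤ 1`, to the inequality of the problem. -/
theorem ge_one_of (n : ℕ) (hn : 3 ≤ n) (a c : ℝ) (hc : c ≤ 1)
    (h : Real.exp (-(c * LL n ^ 2)) ≤ a) :
    1 ≤ a * Real.log n ^ Real.log (Real.log n) := by
  rw [rpow_LL n hn]
  have h1 : Real.log (Real.log n) = LL n := rfl
  rw [h1]
  have h2 : 1 ≤ Real.exp (-(c * LL n ^ 2)) * Real.exp (LL n * LL n) := by
    rw [← Real.exp_add]
    apply Real.one_le_exp
    nlinarith [sq_nonneg (LL n)]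
  exact h2.trans (mul_le_mul_of_nonneg_right h (Real.exp_pos _).le)

theorem lt_one_of (n : ℕ) (hn : 3 ≤ n) (hL : 0 < LL n) (a c : ℝ) (hc : 1 < c)
    (h : a ≤ Real.exp (-(c * LL n ^ 2))) :
    a * Real.log n ^ Real.log (Real.log n) < 1 := by
  rw [rpow_LL n hn]
  have h1 : Real.log (Real.log n) = LL n := rfl
  rw [h1]
  have h2 : Real.exp (-(c * LL n ^ 2)) * Real.exp (LL n * LL n) < 1 := by
    rw [← Real.exp_add, Real.exp_lt_one_iff]
    have : 0 < LL n ^ 2 := by positivity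
    nlinarith
  exact lt_of_le_of_lt (mul_le_mul_of_nonneg_right h (Real.exp_pos _).le) h2

end Pool.Agent.H562.NP
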