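import Pool.Agent.H562.NP.Iter

/-! The upper bound: the differences `m 2 ^ k`, `m ≤ ω k`. -/

set_option autoImplicit false

open Finset

namespace Pool.Agent.H562.NP

/-- The differences `m 2 ^ k` with `1 ≤ m ≤ ω k`. -/
def Mult (ω : ℕ → ℕ) : Set ℕ := {d | ∃ m k : ℕ, 1 ≤ m ∧ m ≤ ω k ∧ d = m * 2 ^ k}

theorem two_pow_mem_Mult (ω : ℕ → ℕ) (j : ℕ) (h : 1 ≤ ω j) : 2 ^ j ∈ Mult ω :=
  ⟨1, j, le_rfl, h, by simp⟩

/-- At most `ω (log₂ (2 x))` of these differences are in `[x, 2 x)`. -/
theorem Mult_count (ω : ℕ → ℕ) (hω : Monotone ω) (x : ℕ) :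
    (Mult ω ∩ Set.Ico x (2 * x)).ncard ≤ ω (Nat.log 2 (2 * x)) := by
  set B : ℕ := ω (Nat.log 2 (2 * x)) with hB
  have hkey : ∀ d ∈ Mult ω ∩ Set.Ico x (2 * x), ∃ m k : ℕ, 1 ≤ m ∧ m ≤ B ∧ d = m * 2 ^ k := by
    rintro d ⟨⟨m, k, hm1, hm2, rfl⟩, hd1, hd2⟩
    refine ⟨m, k, hm1, hm2.trans (hω ?_), rfl⟩
    have h1 : 2 ^ k < 2 * x := lt_of_le_of_lt (Nat.le_mul_of_pos_left _ hm1) hd2
    exact Nat.le_log_of_pow_le (by norm_num) h1.le
  choose! m k h1 h2 h3 using hkey
  have hfin : (Mult ω ∩ Set.Ico x (2 * x)).Finite :=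
    (Set.finite_Ico x (2 * x)).subset Set.inter_subset_right
  have hle : (Mult ω ∩ Set.Ico x (2 * x)).ncard ≤ (Set.Icc 1 B).ncard := by
    apply Set.ncard_le_ncard_of_injOn m
    · intro d hd
      exact ⟨h1 d hd, h2 d hd⟩
    · intro d hd d' hd' hmm
      have hmm' : m d = m d' := hmm
      have e1 := h3 d hd
      have e2 := h3 d' hd'
      have key : ∀ p q : ℕ, ∀ a : ℕ, x ≤ a * 2 ^ p → a * 2 ^ q < 2 * x → q ≤ p := by
        intro p q a hp hq
        by_contra hlt
        push Not at hlt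
        have : a * 2 ^ (p + 1) ≤ a * 2 ^ q :=
          Nat.mul_le_mul_left _ (Nat.pow_le_pow_right (by norm_num) hlt)
        rw [pow_succ] at this
        have h4 : a * (2 ^ p * 2) = 2 * (a * 2 ^ p) := by ring
        omega
      have b1 := hd.2
      have b2 := hd'.2
      rw [Set.mem_Ico] at b1 b2
      have k1 : k d ≤ k d' := key (k d') (k d) (m d') (by rw [← e2]; exact b2.1)
        (by rw [← hmm', ← e1]; exact b1.2)
      have k2 : k d' ≤ k d := key (k d) (k d') (m d) (by rw [← e1]; exact b1.1)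
        (by rw [hmm', ← e2]; exact b2.2)
      rw [e1, e2, hmm', le_antisymm k1 k2]
  have hcard : (Set.Icc 1 B).ncard = B := by
    rw [← Finset.coe_Icc, Set.ncard_coe_finset, Nat.card_Icc]; omega
  rw [hcard] at hle
  exact hle

/-- `X` contains no progression with `q` terms. -/
def NoAP (q : ℕ) (X : Finset ℕ) : Prop := ∀ a d : ℕ, 1 ≤ d → ∃ j, j < q ∧ a + j * d ∉ X

/-- The recursion for the number of the elements of a set which avoids near progressions. -/
theorem upper_rec (ω : ℕ → ℕ) (t n N h r : ℕ) (ht : 3 ≤ t) (A : Finset ℕ)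
    (hA : Avoids (Mult ω) t n A) (hnN : n ≤ 2 ^ N)
    (hω : ∀ k, N ≤ 2 * k → 2 ^ h ≤ ω k + 1)
    (hr : ∀ X : Finset ℕ, X ⊆ Finset.range (2 ^ h) → NoAP (t - 1) X → X.card ≤ r) (s : ℕ) :
    ∀ κ, κ ≤ N → 2 ^ s * (κ + 2 * h) ≤ N + 2 * h → ∀ u, 2 ^ (N - κ) ≤ u →
      (A.filter (fun a => u ≤ a ∧ a < u + 2 ^ (N - κ))).card * 2 ^ (h * s) ≤
        r ^ s * 2 ^ (N - κ) := by
  induction s with
  | zero =>
    intro κ _ _ u _
    rw [mul_zero, pow_zero, mul_one, pow_zero, one_mul]
    calc _ ≤ (Finset.Ico u (u + 2 ^ (N - κ))).card := by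
          apply Finset.card_le_card
          intro a ha
          rw [Finset.mem_filter] at ha
          rw [Finset.mem_Ico]
          exact ha.2
      _ = 2 ^ (N - κ) := by rw [Nat.card_Ico, Nat.add_sub_cancel_left]
  | succ s ih =>
    intro κ hκ hs u hu
    have hs2 : 2 ^ s * (2 * κ + 2 * h + 2 * h) ≤ N + 2 * h := by
      calc 2 ^ s * (2 * κ + 2 * h + 2 * h) = 2 ^ (s + 1) * (κ + 2 * h) := by ring
        _ ≤ _ := hs
    have hκ2 : 2 * κ + 2 * h ≤ N := by
      have h1 : 1 * (2 * κ + 2 * h + 2 * h) ≤ 2 ^ s * (2 * κ + 2 * h + 2 * h) :=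
        Nat.mul_le_mul_right _ (Nat.one_le_two_pow)
      omega
    obtain ⟨k, hk⟩ : ∃ k, k = N - κ - h := ⟨_, rfl⟩
    obtain ⟨j', hj'⟩ : ∃ j', j' = N - (2 * κ + 2 * h) := ⟨_, rfl⟩
    have hj2 : j' + N = 2 * k := by omega
    have hkj : k = (k - j') + j' := by omega
    have hjk : N - κ = k + h := by omega
    have ih' := ih (2 * κ + 2 * h) hκ2 hs2
    rw [← hj'] at ih'
    rw [hjk] at hu ⊢
    have hP : 0 < 2 ^ j' := by positivity
    have hQ : 0 < 2 ^ (k - j') := by positivity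
    set T := A.filter (fun a => u ≤ a ∧ a < u + 2 ^ (k + h)) with hT
    set blk : ℕ → ℕ := fun a => (a - u) / 2 ^ j' with hblk
    set I := T.image blk with hI
    have hTsum : T.card = ∑ i ∈ I, (T.filter (fun a => blk a = i)).card :=
      Finset.card_eq_sum_card_fiberwise (fun a ha =>
        Finset.mem_coe.mpr (Finset.mem_image_of_mem _ (Finset.mem_coe.mp ha)))
    -- the blocks of one class modulo `2 ^ (k - j')`
    have hclass : ∀ c ∈ I.image (fun i => i % 2 ^ (k - j')),
        (I.filter (fun i => i % 2 ^ (k - j') = c)).card ≤ r := by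
      intro c _
      set X := (I.filter (fun i => i % 2 ^ (k - j') = c)).image (fun i => i / 2 ^ (k - j'))
        with hX
      have hcardX : (I.filter (fun i => i % 2 ^ (k - j') = c)).card = X.card := by
        rw [hX, Finset.card_image_of_injOn]
        intro i hi i' hi' hii
        have e1 := (Finset.mem_filter.mp (Finset.mem_coe.mp hi)).2
        have e2 := (Finset.mem_filter.mp (Finset.mem_coe.mp hi')).2
        have e3 := Nat.div_add_mod i (2 ^ (k - j'))
        have e4 := Nat.div_add_mod i' (2 ^ (k - j'))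
        have hii' : i / 2 ^ (k - j') = i' / 2 ^ (k - j') := hii
        rw [← e3, ← e4, hii', e1, e2]
      rw [hcardX]
      -- an element of `X` gives an element of `A` in the block
      have hel : ∀ x ∈ X, ∃ a ∈ T, u + (2 ^ (k - j') * x + c) * 2 ^ j' ≤ a ∧
          a < u + (2 ^ (k - j') * x + c) * 2 ^ j' + 2 ^ j' := by
        intro x hx
        obtain ⟨i, hi, rfl⟩ := Finset.mem_image.mp hx
        rw [Finset.mem_filter] at hi
        obtain ⟨hi1, hi2⟩ := hi
        obtain ⟨a, ha, rfl⟩ := Finset.mem_image.mp hi1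
        refine ⟨a, ha, ?_⟩
        have e3 := Nat.div_add_mod (blk a) (2 ^ (k - j'))
        rw [hi2] at e3
        rw [e3]
        have b1 : blk a * 2 ^ j' ≤ a - u := Nat.div_mul_le_self _ _
        have b1' : a - u < (blk a + 1) * 2 ^ j' := by
          rw [mul_comm]; exact Nat.lt_mul_div_succ _ hP
        rw [add_mul, one_mul] at b1'
        rw [hT, Finset.mem_filter] at ha
        constructor <;> omega
      have hrange : X ⊆ Finset.range (2 ^ h) := by
        intro x hx
        obtain ⟨a, ha, h1, -⟩ := hel x hx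
        rw [hT, Finset.mem_filter] at ha
        rw [Finset.mem_range]
        have h2 : (2 ^ (k - j') * x + c) * 2 ^ j' < 2 ^ (k + h) := by omega
        have h3 : 2 ^ k * x ≤ (2 ^ (k - j') * x + c) * 2 ^ j' := by
          calc 2 ^ k * x = 2 ^ (k - j') * x * 2 ^ j' := by
                rw [mul_right_comm, ← pow_add, ← hkj]
            _ ≤ _ := Nat.mul_le_mul_right _ (Nat.le_add_right _ _)
        have h4 : 2 ^ k * x < 2 ^ k * 2 ^ h := by rw [← pow_add]; omega
        exact Nat.lt_of_mul_lt_mul_left h4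
      refine hr X hrange ?_
      intro a0 δ hδ
      by_contra hcon
      push Not at hcon
      have hδ2 : δ < 2 ^ h := by
        have h1 := hcon 1 (by omega)
        have h2 := Finset.mem_range.mp (hrange h1)
        omega
      have hd : δ * 2 ^ k ∈ Mult ω := by
        refine ⟨δ, k, hδ, ?_, rfl⟩
        have := hω k (by omega)
        omega
      have hw : (2 ^ j' - 1) * n < (δ * 2 ^ k) ^ 2 := by
        have e1 : (2 ^ j' - 1) * n ≤ (2 ^ j' - 1) * 2 ^ N := Nat.mul_le_mul_left _ hnN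
        have e2 : (2 ^ j' - 1) * 2 ^ N < 2 ^ j' * 2 ^ N :=
          Nat.mul_lt_mul_of_pos_right (by omega) (by positivity)
        have e3 : 2 ^ j' * 2 ^ N = (2 ^ k) ^ 2 := by
          rw [← pow_add, hj2, ← pow_mul]; congr 1; ring
        have e4 : (2 ^ k) ^ 2 ≤ (δ * 2 ^ k) ^ 2 :=
          Nat.pow_le_pow_left (Nat.le_mul_of_pos_left _ hδ) 2
        omega
      have hbig : δ * 2 ^ k ≤ u := by
        have h1 : δ * 2 ^ k ≤ 2 ^ h * 2 ^ k := Nat.mul_le_mul_right _ hδ2.le
        rw [← pow_add, add_comm h k] at h1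
        omega
      have hPQ : 2 ^ (k - j') * 2 ^ j' = 2 ^ k := by rw [← pow_add, ← hkj]
      refine hA.2 _ hd _ hw ⟨u + (2 ^ (k - j') * a0 + c) * 2 ^ j' - δ * 2 ^ k, fun l hl => ?_⟩
      rw [Finset.mem_Icc] at hl
      obtain ⟨a, ha, h1, h2⟩ := hel (a0 + (l - 1) * δ) (hcon (l - 1) (by omega))
      refine ⟨a, ?_, ?_⟩
      · rw [hT, Finset.mem_filter] at ha; exact ha.1
      · have e1 : (2 ^ (k - j') * (a0 + (l - 1) * δ) + c) * 2 ^ j' =
            (2 ^ (k - j') * a0 + c) * 2 ^ j' + (l - 1) * (δ * 2 ^ k) := by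
          rw [← hPQ]; ring
        rw [e1] at h1 h2
        obtain ⟨l', hl'⟩ : ∃ l', l = l' + 1 := ⟨l - 1, by omega⟩
        subst hl'
        simp only [Nat.add_sub_cancel] at h1 h2
        have e2 : (l' + 1) * (δ * 2 ^ k) = l' * (δ * 2 ^ k) + δ * 2 ^ k := by ring
        rw [e2]
        constructor <;> omega
    have hIcard : I.card ≤ r * 2 ^ (k - j') := by
      calc I.card ≤ r * (I.image (fun i => i % 2 ^ (k - j'))).card :=
            Finset.card_le_mul_card_image I r hclass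
        _ ≤ r * 2 ^ (k - j') := by
            apply Nat.mul_le_mul_left
            calc _ ≤ (Finset.range (2 ^ (k - j'))).card := by
                  apply Finset.card_le_card
                  intro c hc
                  obtain ⟨i, -, rfl⟩ := Finset.mem_image.mp hc
                  exact Finset.mem_range.mpr (Nat.mod_lt _ hQ)
              _ = _ := Finset.card_range _
    have hfib : ∀ i ∈ I, (T.filter (fun a => blk a = i)).card * 2 ^ (h * s) ≤
        r ^ s * 2 ^ j' := by
      intro i _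
      have hle := ih' (u + i * 2 ^ j') (by
        have : 2 ^ j' ≤ 2 ^ (k + h) := Nat.pow_le_pow_right (by norm_num) (by omega)
        omega)
      refine le_trans (Nat.mul_le_mul_right _ (Finset.card_le_card ?_)) hle
      intro a ha
      rw [Finset.mem_filter, hT, Finset.mem_filter] at ha
      obtain ⟨⟨ha1, ha2⟩, hai⟩ := ha
      rw [Finset.mem_filter, ← hai]
      have b2 : blk a * 2 ^ j' ≤ a - u := Nat.div_mul_le_self _ _
      have b2' : a - u < (blk a + 1) * 2 ^ j' := by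
        rw [mul_comm]; exact Nat.lt_mul_div_succ _ hP
      rw [add_mul, one_mul] at b2'
      refine ⟨ha1, ?_, ?_⟩ <;> omega
    calc T.card * 2 ^ (h * (s + 1)) = T.card * 2 ^ (h * s) * 2 ^ h := by ring
      _ = (∑ i ∈ I, (T.filter (fun a => blk a = i)).card * 2 ^ (h * s)) * 2 ^ h := by
          rw [hTsum, Finset.sum_mul]
      _ ≤ (∑ _i ∈ I, r ^ s * 2 ^ j') * 2 ^ h := by
          apply Nat.mul_le_mul_right
          exact Finset.sum_le_sum hfib
      _ = I.card * (r ^ s * 2 ^ j') * 2 ^ h := by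
          rw [Finset.sum_const, smul_eq_mul]
      _ ≤ (r * 2 ^ (k - j')) * (r ^ s * 2 ^ j') * 2 ^ h := by gcongr
      _ = r ^ (s + 1) * ((2 ^ (k - j') * 2 ^ j') * 2 ^ h) := by ring
      _ = r ^ (s + 1) * 2 ^ (k + h) := by
          rw [← pow_add, ← pow_add, ← hkj]

/-- The upper bound, finite form. -/
theorem upper_fin (ω : ℕ → ℕ) (t n N h r S : ℕ) (ht : 3 ≤ t) (A : Finset ℕ)
    (hA : Avoids (Mult ω) t n A) (hnN : n ≤ 2 ^ N) (hN2 : 2 ^ N ≤ 2 * n)
    (hω : ∀ k, N ≤ 2 * k → 2 ^ h ≤ ω k + 1) (hr1 : 1 ≤ r)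
    (hr : ∀ X : Finset ℕ, X ⊆ Finset.range (2 ^ h) → NoAP (t - 1) X → X.card ≤ r)
    (hS : 2 ^ S * (h * S + 2 * h) ≤ N + 2 * h)
    (hSN : h * S ≤ N) : A.card * 2 ^ (h * S) ≤ r ^ S * (6 * n) := by
  have hAn : ∀ a ∈ A, 1 ≤ a ∧ a ≤ 2 ^ N := fun a ha => by
    have := hA.1 ha
    rw [Finset.mem_Icc] at this
    omega
  have hstep : ∀ T, T ≤ h * S →
      (A.filter (fun a => 2 ^ (N - T) ≤ a)).card * 2 ^ (h * S) + r ^ S * 2 ^ (N - T) ≤
        r ^ S * 2 ^ (N + 1) := by
    intro T
    induction T with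
    | zero =>
      intro _
      have h1 := upper_rec ω t n N h r ht A hA hnN hω hr S 0 (Nat.zero_le _)
        (le_trans (Nat.mul_le_mul_left _ (by omega)) hS) (2 ^ N) le_rfl
      rw [Nat.sub_zero] at h1 ⊢
      have h2 : (A.filter (fun a => 2 ^ N ≤ a)).card ≤
          (A.filter (fun a => 2 ^ N ≤ a ∧ a < 2 ^ N + 2 ^ N)).card := by
        apply Finset.card_le_card
        intro a ha
        rw [Finset.mem_filter] at ha ⊢
        have := (hAn a ha.1).2
        have hp : 0 < 2 ^ N := by positivity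
        exact ⟨ha.1, ha.2, by omega⟩
      have h3 := Nat.mul_le_mul_right (2 ^ (h * S)) h2
      rw [pow_succ]
      nlinarith
    | succ T ih =>
      intro hT
      have ih' := ih (by omega)
      have h1 := upper_rec ω t n N h r ht A hA hnN hω hr S (T + 1) (by omega)
        (le_trans (Nat.mul_le_mul_left _ (by omega)) hS) (2 ^ (N - (T + 1))) le_rfl
      have hpow : 2 ^ (N - T) = 2 ^ (N - (T + 1)) + 2 ^ (N - (T + 1)) := by
        rw [← two_mul, ← pow_succ']; congr 1; omega
      have h2 : (A.filter (fun a => 2 ^ (N - (T + 1)) ≤ a)).card ≤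
          (A.filter (fun a => 2 ^ (N - T) ≤ a)).card +
          (A.filter (fun a => 2 ^ (N - (T + 1)) ≤ a ∧
            a < 2 ^ (N - (T + 1)) + 2 ^ (N - (T + 1)))).card := by
        refine le_trans (Finset.card_le_card ?_) (Finset.card_union_le _ _)
        intro a ha
        rw [Finset.mem_filter] at ha
        rw [Finset.mem_union, Finset.mem_filter, Finset.mem_filter]
        rcases Nat.lt_or_ge a (2 ^ (N - T)) with h3 | h3
        · right
          exact ⟨ha.1, ha.2, by omega⟩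
        · left
          exact ⟨ha.1, h3⟩
      have h3 := Nat.mul_le_mul_right (2 ^ (h * S)) h2
      rw [add_mul] at h3
      have hpow' : r ^ S * 2 ^ (N - T) =
          r ^ S * 2 ^ (N - (T + 1)) + r ^ S * 2 ^ (N - (T + 1)) := by rw [hpow, mul_add]
      rw [← hpow] at h1 h2 h3
      have h1' := h1
      omega
  have h1 := hstep (h * S) le_rfl
  have h2 : A.card ≤ (A.filter (fun a => 2 ^ (N - h * S) ≤ a)).card + 2 ^ (N - h * S) := by
    have h3 : A ⊆ (A.filter (fun a => 2 ^ (N - h * S) ≤ a)) ∪ Finset.range (2 ^ (N - h * S)) := by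
      intro a ha
      rw [Finset.mem_union, Finset.mem_filter, Finset.mem_range]
      rcases Nat.lt_or_ge a (2 ^ (N - h * S)) with h4 | h4
      · exact Or.inr h4
      · exact Or.inl ⟨ha, h4⟩
    calc A.card ≤ _ := Finset.card_le_card h3
      _ ≤ _ := Finset.card_union_le _ _
      _ = _ := by rw [Finset.card_range]
  have h3 := Nat.mul_le_mul_right (2 ^ (h * S)) h2
  rw [add_mul, ← pow_add, Nat.sub_add_cancel hSN] at h3
  rw [pow_succ] at h1
  have hrS : 1 ≤ r ^ S := Nat.one_le_pow _ _ hr1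
  have hp : 0 < 2 ^ (N - h * S) := by positivity
  have h4 : 2 ^ N ≤ r ^ S * 2 ^ N := Nat.le_mul_of_pos_left _ (by omega)
  have h5 : r ^ S * 2 ^ N ≤ r ^ S * (2 * n) := Nat.mul_le_mul_left _ hN2
  have h6 : 0 ≤ r ^ S * 2 ^ (N - h * S) := Nat.zero_le _
  have h7 : r ^ S * (2 ^ N * 2) = 2 * (r ^ S * 2 ^ N) := by ring
  have h8 : r ^ S * (6 * n) = 3 * (r ^ S * (2 * n)) := by ring
  rw [h7] at h1
  rw [h8]
  omega

/-- Two terms. -/
theorem noAP_two (X : Finset ℕ) (hX : NoAP 2 X) : X.card ≤ 1 := by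
  by_contra hcon
  push Not at hcon
  obtain ⟨a, ha, b, hb, hab⟩ := Finset.one_lt_card.mp hcon
  rcases Nat.lt_or_gt_of_ne hab with h | h
  · obtain ⟨j, hj, hj2⟩ := hX a (b - a) (by omega)
    have : j = 0 ∨ j = 1 := by omega
    rcases this with rfl | rfl
    · simp at hj2; exact hj2 ha
    · apply hj2
      have : a + 1 * (b - a) = b := by omega
      rw [this]; exact hb
  · obtain ⟨j, hj, hj2⟩ := hX b (a - b) (by omega)
    have : j = 0 ∨ j = 1 := by omega
    rcases this with rfl | rfl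
    · simp at hj2; exact hj2 hb
    · apply hj2
      have : b + 1 * (a - b) = a := by omega
      rw [this]; exact ha

end Pool.Agent.H562.NP
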